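import Mathlib

/-!
The combinatorial lemma behind the countable chain condition.
-/

open Set

namespace Pool.Agent.H83.Hull

/-- `F` is free for `(x, K)`: `x j ∉ K i` for distinct `i, j ∈ F`. -/
def Free {W : Type*} (x : W → ℝ) (K : W → Set ℝ) (F : Finset W) : Prop :=
  ∀ i ∈ F, ∀ j ∈ F, i ≠ j → x j ∉ K i

/-- Among uncountably many finite free sets two distinct ones have a free union. -/
theorem exists_amalgam {W : Type*} [LinearOrder W]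
    (hW : ∀ w : W, (Iic w).Countable)
    (hbdd : ∀ s : Set W, s.Countable → ∃ a : W, ∀ b ∈ s, b ≤ a)
    {x : W → ℝ} {K : W → Set ℝ} (hK : ∀ w, IsClosed (K w)) (hprev : ∀ v w, v < w → x v ∉ K w)
    (𝔽 : Set (Finset W)) (h𝔽 : ¬ 𝔽.Countable) (hfree : ∀ F ∈ 𝔽, Free x K F) :
    ∃ F ∈ 𝔽, ∃ F' ∈ 𝔽, F ≠ F' ∧
      ∀ i, (i ∈ F ∨ i ∈ F') → ∀ j, (j ∈ F ∨ j ∈ F') → i ≠ j → x j ∉ K i := by
  classical
  -- reduce to fixed cardinality
  obtain ⟨n, hn⟩ : ∃ n, ¬ {F ∈ 𝔽 | F.card = n}.Countable := by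
    by_contra hcon
    push Not at hcon
    apply h𝔽
    refine (countable_iUnion hcon).mono ?_
    intro F hF
    exact mem_iUnion.2 ⟨F.card, hF, rfl⟩
  -- a maximal root
  let Q : ℕ → Prop := fun m => ∃ R : Finset W, R.card = m ∧
    ¬ {F ∈ 𝔽 | F.card = n ∧ R ⊆ F}.Countable
  have hQ0 : Q 0 := ⟨∅, rfl, by simpa using hn⟩
  have hQn : ∀ m, Q m → m ≤ n := by
    rintro m ⟨R, rfl, hR⟩
    obtain ⟨F, hF⟩ : {F ∈ 𝔽 | F.card = n ∧ R ⊆ F}.Nonempty := by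
      by_contra he
      rw [not_nonempty_iff_eq_empty] at he
      exact hR (he ▸ countable_empty)
    rw [← hF.2.1]
    exact Finset.card_le_card hF.2.2
  obtain ⟨R, hRm, hR⟩ : Q (Nat.findGreatest Q n) :=
    Nat.findGreatest_spec (P := Q) (hQn 0 hQ0) hQ0
  set 𝔾 : Set (Finset W) := {F ∈ 𝔽 | F.card = n ∧ R ⊆ F} with h𝔾
  have hcount : ∀ a ∉ R, {F ∈ 𝔾 | a ∈ F}.Countable := by
    intro a ha
    by_contra hunc
    have hQ : Q (R.card + 1) := by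
      refine ⟨insert a R, Finset.card_insert_of_notMem ha, ?_⟩
      intro h
      apply hunc
      refine h.mono ?_
      rintro F ⟨⟨hF, hFn, hRF⟩, haF⟩
      exact ⟨hF, hFn, Finset.insert_subset haF hRF⟩
    have := Nat.le_findGreatest (hQn _ hQ) hQ
    omega
  have hcount' : ∀ b : W, {F ∈ 𝔾 | ∃ a ∈ F, a ∉ R ∧ a ≤ b}.Countable := by
    intro b
    have : {F ∈ 𝔾 | ∃ a ∈ F, a ∉ R ∧ a ≤ b} ⊆ ⋃ a ∈ {a : W | a ≤ b ∧ a ∉ R}, {F ∈ 𝔾 | a ∈ F} := by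
      rintro F ⟨hF, a, haF, haR, hab⟩
      exact mem_biUnion (show a ∈ {a : W | a ≤ b ∧ a ∉ R} from ⟨hab, haR⟩) ⟨hF, haF⟩
    refine Countable.mono this ?_
    refine Countable.biUnion ((hW b).mono fun a ha => ha.1) ?_
    intro a ha
    exact hcount a ha.2
  -- the closed sets
  set k := n - R.card with hk
  let H : Finset W → Set (Fin k → ℝ) := fun F => ⋃ i ∈ F \ R, ⋃ l : Fin k, {y | y l ∈ K i}
  have hH : ∀ F, IsClosed (H F) := by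
    intro F
    refine isClosed_biUnion_finset ?_
    intro i _
    exact isClosed_iUnion_of_finite fun l => (hK i).preimage (continuous_apply l)
  have hy : ∀ F ∈ 𝔾, ∃ y : Fin k → ℝ, (∀ l, ∃ j ∈ F \ R, y l = x j) ∧
      (∀ j ∈ F \ R, ∃ l, y l = x j) := by
    rintro F ⟨hF, hFn, hRF⟩
    have hc : (F \ R).card = k := by
      rw [Finset.card_sdiff_of_subset hRF, hFn]
    let e := (F \ R).equivFinOfCardEq hc
    refine ⟨fun l => x (e.symm l), fun l => ⟨e.symm l, (e.symm l).2, rfl⟩, fun j hj =>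
      ⟨e ⟨j, hj⟩, by simp⟩⟩
  choose! y hy1 hy2 using hy
  obtain ⟨𝔾₀, h𝔾₀, h𝔾₀c, h𝔾₀U⟩ := TopologicalSpace.isOpen_biUnion_countable 𝔾
    (fun F => (H F)ᶜ) (fun F _ => (hH F).isOpen_compl)
  obtain ⟨b, hb⟩ := hbdd (⋃ F ∈ 𝔾₀, (F : Set W))
    (h𝔾₀c.biUnion fun F _ => F.countable_toSet)
  have hbig : ∀ s : Set (Finset W), s.Countable → ∃ F ∈ 𝔾, F ∉ s := by
    intro s hs
    by_contra hcon
    push Not at hcon
    exact hR (hs.mono hcon)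
  obtain ⟨F₁, hF₁, hF₁s⟩ := hbig _ ((hcount' b).union h𝔾₀c)
  obtain ⟨b₁, hb₁⟩ := hbdd (F₁ : Set W) F₁.countable_toSet
  obtain ⟨F₂, hF₂, hF₂s⟩ := hbig _ (hcount' b₁)
  have hF₁b : ∀ a ∈ F₁, a ∉ R → b < a := by
    intro a ha haR
    by_contra hab
    exact hF₁s (Or.inl ⟨hF₁, a, ha, haR, not_lt.1 hab⟩)
  have hF₂b : ∀ a ∈ F₂, a ∉ R → b₁ < a := by
    intro a ha haR
    by_contra hab
    exact hF₂s ⟨hF₂, a, ha, haR, not_lt.1 hab⟩
  by_contra hcon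
  push Not at hcon
  have hcon' : ∀ F ∈ 𝔽, ∀ F' ∈ 𝔽, F ≠ F' → ¬ Free x K (F ∪ F') := by
    intro F hF F' hF' hne hfr
    obtain ⟨i, hi, j, hj, hij, hx⟩ := hcon F hF F' hF' hne
    exact hfr i (Finset.mem_union.2 hi) j (Finset.mem_union.2 hj) hij hx
  have hmem : ∀ F ∈ 𝔾₀, y F₁ ∈ H F := by
    intro F hF
    have hFG := h𝔾₀ hF
    have hne : F ≠ F₁ := by
      rintro rfl
      exact hF₁s (Or.inr hF)
    have hnf := hcon' F hFG.1 F₁ hF₁.1 hne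
    unfold Free at hnf
    push Not at hnf
    obtain ⟨i, hi, j, hj, hij, hx⟩ := hnf
    rw [Finset.mem_union] at hi hj
    -- `i ∈ F \ F₁`, `j ∈ F₁ \ F`
    have key : i ∈ F ∧ i ∉ R ∧ j ∈ F₁ ∧ j ∉ R := by
      by_cases hiF : i ∈ F
      · have hjF : j ∉ F := fun hjF => hfree F hFG.1 i hiF j hjF hij hx
        have hjF₁ : j ∈ F₁ := hj.resolve_left hjF
        have hiF₁ : i ∉ F₁ := fun h => hfree F₁ hF₁.1 i h j hjF₁ hij hx
        exact ⟨hiF, fun h => hiF₁ (hF₁.2.2 h), hjF₁, fun h => hjF (hFG.2.2 h)⟩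
      · have hiF₁ : i ∈ F₁ := hi.resolve_left hiF
        have hjF₁ : j ∉ F₁ := fun h => hfree F₁ hF₁.1 i hiF₁ j h hij hx
        have hjF : j ∈ F := hj.resolve_right hjF₁
        exfalso
        have hiR : i ∉ R := fun h => hiF (hFG.2.2 h)
        have h1 : j ≤ b := hb j (mem_biUnion hF hjF)
        exact hprev j i (h1.trans_lt (hF₁b i hiF₁ hiR)) hx
    obtain ⟨hi, hiR, hj, hjR⟩ := key
    obtain ⟨l, hl⟩ := hy2 F₁ hF₁ j (Finset.mem_sdiff.2 ⟨hj, hjR⟩)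
    simp only [H, mem_iUnion]
    exact ⟨i, Finset.mem_sdiff.2 ⟨hi, hiR⟩, l, by
      show y F₁ l ∈ K i
      rw [hl]; exact hx⟩
  have hnot : y F₁ ∉ ⋃ F ∈ 𝔾, (H F)ᶜ := by
    rw [← h𝔾₀U]
    simp only [mem_iUnion, not_exists]
    intro F hF h
    exact h (hmem F hF)
  have h2 : y F₁ ∈ H F₂ := by
    by_contra h
    exact hnot (mem_biUnion hF₂ h)
  simp only [H, mem_iUnion] at h2
  obtain ⟨i, hi, l, hl⟩ := h2
  obtain ⟨j, hj, hjl⟩ := hy1 F₁ hF₁ l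
  have hl' : x j ∈ K i := by
    rw [← hjl]; exact hl
  rw [Finset.mem_sdiff] at hi hj
  exact hprev j i ((hb₁ j hj.1).trans_lt (hF₂b i hi.1 hi.2)) hl'

end Pool.Agent.H83.Hull
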