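import Mathlib

/-!
Auxiliary lemmas about Lebesgue measure on the line used for monotone hulls.
-/

open MeasureTheory Set Filter Topology

namespace Pool.Agent.H83.Hull

/-- Two sets of positive measure meet after translating the first by a suitable rational. -/
lemma exists_rat_translate {E F : Set ℝ} (hEm : MeasurableSet E)
    (hE : volume E ≠ 0) (hF : volume F ≠ 0) :
    ∃ q : ℚ, ∃ x ∈ E, x + (q : ℝ) ∈ F := by
  have h1 := Besicovitch.ae_tendsto_measure_inter_div (volume : Measure ℝ) E
  have h2 := Besicovitch.ae_tendsto_measure_inter_div (volume : Measure ℝ) F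
  have : NeBot (ae ((volume : Measure ℝ).restrict E)) := ae_restrict_neBot.2 hE
  have : NeBot (ae ((volume : Measure ℝ).restrict F)) := ae_restrict_neBot.2 hF
  obtain ⟨x, hx⟩ := h1.exists
  obtain ⟨y, hy⟩ := h2.exists
  have h34 : (3 / 4 : ENNReal) < 1 := by
    rw [ENNReal.div_lt_iff (by norm_num) (by norm_num)]; norm_num
  have hx' := hx.eventually (lt_mem_nhds h34)
  have hy' := hy.eventually (lt_mem_nhds h34)
  obtain ⟨r, ⟨hrx, hry⟩, hr⟩ := ((hx'.and hy').and self_mem_nhdsWithin).exists
  have hr0 : (0 : ℝ) < r := hr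
  obtain ⟨q, hq1, hq2⟩ := exists_rat_btwn (show y - x - r / 4 < y - x + r / 4 by linarith)
  refine ⟨q, ?_⟩
  by_contra hcon
  push Not at hcon
  have hB : ∀ z : ℝ, ∀ s : ℝ, volume (Metric.closedBall z s) = ENNReal.ofReal (2 * s) := by
    intro z s; exact Real.volume_closedBall z s
  rw [hB, ENNReal.lt_div_iff_mul_lt (Or.inl (by simpa using hr0))
    (Or.inl ENNReal.ofReal_ne_top)] at hrx hry
  set A : Set ℝ := (fun z => z + (q : ℝ)) '' (E ∩ Metric.closedBall x r) with hA
  set C : Set ℝ := F ∩ Metric.closedBall y r with hC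
  have hAv : volume A = volume (E ∩ Metric.closedBall x r) := by
    rw [hA, image_add_right, measure_preimage_add_right]
  have hAm : MeasurableSet A := by
    rw [hA, image_add_right]
    exact (measurable_add_const _) (hEm.inter Metric.isClosed_closedBall.measurableSet)
  have hdisj : Disjoint C A := by
    rw [Set.disjoint_left]
    rintro z ⟨hzF, -⟩ ⟨w, ⟨hwE, -⟩, rfl⟩
    exact hcon w hwE hzF
  have hsub : C ∪ A ⊆ Metric.closedBall y (5 * r / 4) := by
    rintro z (⟨-, hz⟩ | ⟨w, ⟨-, hw⟩, rfl⟩)
    · exact Metric.closedBall_subset_closedBall (by linarith) hz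
    · rw [Metric.mem_closedBall, Real.dist_eq, abs_le] at hw ⊢
      constructor <;> simp only <;> linarith [hw.1, hw.2]
  have hle := measure_mono (μ := volume) hsub
  rw [measure_union hdisj hAm, hAv, hB] at hle
  have hlt : 3 / 4 * ENNReal.ofReal (2 * r) + 3 / 4 * ENNReal.ofReal (2 * r) <
      volume C + volume (E ∩ Metric.closedBall x r) :=
    ENNReal.add_lt_add hry hrx
  have hlt2 := hlt.trans_le hle
  have e : (3 / 4 : ENNReal) = ENNReal.ofReal (3 / 4) := by
    rw [ENNReal.ofReal_div_of_pos (by norm_num)]; norm_num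
  rw [e, ← ENNReal.ofReal_mul (by norm_num), ← ENNReal.ofReal_add (by positivity) (by positivity),
    ENNReal.ofReal_lt_ofReal_iff (by positivity)] at hlt2
  linarith

/-- The union of all rational translates of a set of positive measure is conull. -/
lemma null_compl_iUnion_rat_translate {E : Set ℝ} (hEm : MeasurableSet E) (hE : volume E ≠ 0) :
    volume (⋃ q : ℚ, {x : ℝ | x - (q : ℝ) ∈ E})ᶜ = 0 := by
  by_contra hF
  obtain ⟨q, x, hx, hxF⟩ := exists_rat_translate hEm hE hF
  apply hxF
  rw [mem_iUnion]
  exact ⟨q, by simpa using hx⟩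

/-- Outside each null set there is a closed set of positive measure all of whose non-empty
relatively open subsets have positive measure. -/
lemma exists_selfsupported {N : Set ℝ} (hN : volume N = 0) :
    ∃ P : Set ℝ, IsClosed P ∧ Disjoint P N ∧ P.Nonempty ∧
      ∀ O : Set ℝ, IsOpen O → (P ∩ O).Nonempty → volume (P ∩ O) ≠ 0 := by
  have hG : volume (toMeasurable volume N) = 0 := by rw [measure_toMeasurable]; exact hN
  have hpos : (0 : ENNReal) < volume (toMeasurable volume N)ᶜ := by
    by_contra h
    have h0 : volume (toMeasurable volume N)ᶜ = 0 := by simpa using h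
    have h1 : volume (univ : Set ℝ) ≤ 0 := by
      calc volume (univ : Set ℝ) = volume (toMeasurable volume N ∪ (toMeasurable volume N)ᶜ) := by
            rw [union_compl_self]
        _ ≤ volume (toMeasurable volume N) + volume (toMeasurable volume N)ᶜ := measure_union_le _ _
        _ = 0 := by rw [hG, h0, add_zero]
    simp at h1
  obtain ⟨K, hKsub, hKc, hKpos⟩ :=
    (measurableSet_toMeasurable volume N).compl.exists_lt_isCompact hpos
  set ν := (volume : Measure ℝ).restrict K with hν
  have hPK : ν.support ⊆ K := by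
    have := Measure.support_restrict_subset (μ := (volume : Measure ℝ)) (s := K)
    intro x hx
    have h2 := this hx
    have := h2.1
    rwa [hKc.isClosed.closure_eq] at this
  have hKP : volume (K \ ν.support) = 0 := by
    have := Measure.measure_compl_support (μ := ν)
    rw [hν, Measure.restrict_apply (Measure.isOpen_compl_support).measurableSet] at this
    rw [← this, inter_comm, ← sdiff_eq]
  refine ⟨ν.support, Measure.isClosed_support, ?_, ?_, ?_⟩
  · rw [Set.disjoint_left]
    intro x hx hxN
    exact hKsub (hPK hx) (subset_toMeasurable _ _ hxN)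
  · apply Measure.nonempty_support
    intro h0
    rw [hν, Measure.restrict_eq_zero] at h0
    exact hKpos.ne' h0
  · rintro O hO ⟨x, hxP, hxO⟩ h0
    have h1 : 0 < ν O := (Measure.mem_support_iff_forall x).1 hxP O (hO.mem_nhds hxO)
    rw [hν, Measure.restrict_apply hO.measurableSet] at h1
    have h2 : O ∩ K ⊆ (ν.support ∩ O) ∪ (K \ ν.support) := by
      rintro z ⟨hzO, hzK⟩
      by_cases hz : z ∈ ν.support
      · exact Or.inl ⟨hz, hzO⟩
      · exact Or.inr ⟨hzK, hz⟩
    have h3 := (measure_mono (μ := volume) h2).trans (measure_union_le _ _)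
    rw [h0, hKP, add_zero] at h3
    exact absurd h3 (not_le.2 h1)

end Pool.Agent.H83.Hull
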