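import Mathlib

/-!
Definitions used in the statements about monotone hull operations.
-/

open MeasureTheory Set

namespace Pool.Agent.H83.Hull

/-- `cof(𝒩)`: the least cardinality of a family `𝓑` of Lebesgue null subsets of `ℝ` such that
every Lebesgue null set is contained in some member of `𝓑`. -/
noncomputable def cofNull : Cardinal.{0} :=
  sInf {κ : Cardinal.{0} | ∃ 𝓑 : Set (Set ℝ), Cardinal.mk 𝓑 = κ ∧ (∀ B ∈ 𝓑, volume B = 0) ∧
    ∀ A : Set ℝ, volume A = 0 → ∃ B ∈ 𝓑, A ⊆ B}

/-- `add(𝒩)`: the least cardinality of a family of Lebesgue null subsets of `ℝ` whose union is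
not Lebesgue null. -/
noncomputable def addNull : Cardinal.{0} :=
  sInf {κ : Cardinal.{0} | ∃ 𝓑 : Set (Set ℝ), Cardinal.mk 𝓑 = κ ∧ (∀ B ∈ 𝓑, volume B = 0) ∧
    volume (⋃₀ 𝓑) ≠ 0}

/-- `ψ` is a monotone hull operation, with respect to the ideal of Lebesgue null sets, on the
family `𝓕` of subsets of `ℝ`, with all hulls in the class `𝓗`. For `𝓗 = MeasurableSet` (the Borel
sets of `ℝ`) this is a monotone Borel hull operation on `𝓕`. -/
structure IsMonotoneHull (𝓕 : Set (Set ℝ)) (𝓗 : Set ℝ → Prop) (ψ : Set ℝ → Set ℝ) : Prop where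
  mem_class : ∀ A ∈ 𝓕, 𝓗 (ψ A)
  subset_hull : ∀ A ∈ 𝓕, A ⊆ ψ A
  null_diff : ∀ A ∈ 𝓕, volume (ψ A \ A) = 0
  mono : ∀ A ∈ 𝓕, ∀ B ∈ 𝓕, A ⊆ B → ψ A ⊆ ψ B

/-- Two elements of a preorder are compatible if they have a common lower bound. -/
def Compatible {P : Type*} [Preorder P] (p q : P) : Prop := ∃ r, r ≤ p ∧ r ≤ q

/-- The countable chain condition: every set of pairwise incompatible elements is countable. -/
def CountableChainCondition (P : Type*) [Preorder P] : Prop :=
  ∀ A : Set P, (∀ p ∈ A, ∀ q ∈ A, p ≠ q → ¬ Compatible p q) → A.Countable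

/-- `D` is dense in the forcing sense: every element has a smaller (or equal) element in `D`. -/
def IsDenseBelow {P : Type*} [Preorder P] (D : Set P) : Prop := ∀ p, ∃ q ∈ D, q ≤ p

/-- `G` is a filter in the forcing sense: non-empty, closed upwards and downwards directed. -/
structure IsForcingFilter {P : Type*} [Preorder P] (G : Set P) : Prop where
  nonempty : G.Nonempty
  up : ∀ p ∈ G, ∀ q, p ≤ q → q ∈ G
  directed : ∀ p ∈ G, ∀ q ∈ G, ∃ r ∈ G, r ≤ p ∧ r ≤ q

/-- `MA(κ)`: for every non-empty preorder with the countable chain condition and every family of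
at most `κ` dense subsets there is a filter meeting all of them. -/
def MartinsAxiomAt (κ : Cardinal.{0}) : Prop :=
  ∀ (P : Type) [Preorder P] [Nonempty P], CountableChainCondition P →
    ∀ 𝓓 : Set (Set P), Cardinal.mk 𝓓 ≤ κ → (∀ D ∈ 𝓓, IsDenseBelow D) →
      ∃ G : Set P, IsForcingFilter G ∧ ∀ D ∈ 𝓓, (G ∩ D).Nonempty

/-- Martin's axiom: `MA(κ)` for all `κ < 2^ℵ₀`. -/
def MartinsAxiom : Prop := ∀ κ : Cardinal.{0}, κ < Cardinal.continuum → MartinsAxiomAt κ

end Pool.Agent.H83.Hull
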