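import Pool.Agent.H83.HullDefs

/-!
A consequence of `MA(ℵ₁)`: countably many dense sets can be met by a filter containing
uncountably many members of a given uncountable family.
-/

open Set

namespace Pool.Agent.H83.Hull

/-- Under `MA(ℵ₁)`: given a ccc preorder, a family of conditions indexed by a well-order with
countable initial segments and without countable unbounded sets, and countably many dense
sets, there is a filter meeting the dense sets and containing an unbounded set of the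
conditions. -/
theorem exists_generic {W : Type} [LinearOrder W] (hWcard : Cardinal.mk W = Cardinal.aleph 1)
    (hbdd : ∀ s : Set W, s.Countable → ∃ a : W, ∀ b ∈ s, b ≤ a)
    (hMA : MartinsAxiomAt (Cardinal.aleph 1)) {P : Type} [Preorder P]
    (hccc : CountableChainCondition P) (p : W → P) (D : ℕ → Set P)
    (hD : ∀ n, IsDenseBelow (D n)) :
    ∃ G : Set P, IsForcingFilter G ∧ (∀ n, (G ∩ D n).Nonempty) ∧
      ∀ a : W, ∃ w, a ≤ w ∧ p w ∈ G := by
  classical
  have hWne : Nonempty W := Cardinal.mk_ne_zero_iff.1 (by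
    rw [hWcard]; exact (Cardinal.aleph_pos 1).ne')
  -- a condition below which unboundedly many `p w` are always compatible
  obtain ⟨p0, hp0⟩ : ∃ p0 : P, ∀ q ≤ p0, ∀ a : W, ∃ w, a ≤ w ∧ Compatible q (p w) := by
    by_contra hcon
    push Not at hcon
    -- the dense set of bad conditions
    let B : Set P := {q | ∃ a : W, ∀ w, a ≤ w → ¬ Compatible q (p w)}
    have hB : ∀ p0 : P, ∃ q ∈ B, q ≤ p0 := by
      intro p0
      obtain ⟨q, hq, a, ha⟩ := hcon p0
      exact ⟨q, ⟨a, ha⟩, hq⟩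
    obtain ⟨A, hA⟩ : ∃ A : Set P, Maximal (fun A : Set P => A ⊆ B ∧
        ∀ p ∈ A, ∀ q ∈ A, p ≠ q → ¬ Compatible p q) A := by
      apply zorn_subset
      intro c hc hchain
      refine ⟨⋃₀ c, ⟨sUnion_subset fun s hs => (hc hs).1, ?_⟩,
        fun s hs => subset_sUnion_of_mem hs⟩
      rintro x ⟨s, hs, hxs⟩ y ⟨t, ht, hyt⟩ hxy
      rcases hchain.total hs ht with hst | hts
      · exact (hc ht).2 x (hst hxs) y hyt hxy
      · exact (hc hs).2 x hxs y (hts hyt) hxy
    have hAc : A.Countable := hccc A hA.1.2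
    have hch : ∀ q : P, q ∈ A → ∃ a : W, ∀ w, a ≤ w → ¬ Compatible q (p w) :=
      fun q hq => hA.1.1 hq
    choose! f hf using hch
    obtain ⟨a, ha⟩ := hbdd (f '' A) (hAc.image f)
    obtain ⟨q', hq'B, hq'⟩ := hB (p a)
    -- `q'` is compatible with a member of `A`
    obtain ⟨q, hqA, hqq'⟩ : ∃ q ∈ A, Compatible q q' := by
      by_contra hno
      push Not at hno
      have hq'A : q' ∉ A := fun h => hno q' h ⟨q', le_rfl, le_rfl⟩
      have hins : insert q' A ⊆ B ∧
          ∀ p ∈ insert q' A, ∀ q ∈ insert q' A, p ≠ q → ¬ Compatible p q := by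
        refine ⟨insert_subset hq'B hA.1.1, ?_⟩
        intro x hx y hy hxy
        rcases mem_insert_iff.1 hx with hxq | hxA
        · rcases mem_insert_iff.1 hy with hyq | hyA
          · exact absurd (hxq.trans hyq.symm) hxy
          · rintro ⟨r, hr1, hr2⟩
            rw [hxq] at hr1
            exact hno y hyA ⟨r, hr2, hr1⟩
        · rcases mem_insert_iff.1 hy with hyq | hyA
          · rw [hyq]
            exact hno x hxA
          · exact hA.1.2 x hxA y hyA hxy
      exact hq'A (hA.2 hins (subset_insert _ _) (mem_insert _ _))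
    obtain ⟨r, hr1, hr2⟩ := hqq'
    exact hf q hqA a (ha _ (mem_image_of_mem f hqA)) ⟨r, hr1, hr2.trans hq'⟩
  -- work below `p0`
  let Q := {q : P // q ≤ p0}
  have hQne : Nonempty Q := ⟨⟨p0, le_rfl⟩⟩
  have hQccc : CountableChainCondition Q := by
    intro A hA
    have h1 : (Subtype.val '' A).Countable := by
      apply hccc
      rintro _ ⟨x, hx, rfl⟩ _ ⟨y, hy, rfl⟩ hxy ⟨r, hr1, hr2⟩
      exact hA x hx y hy (fun h => hxy (by rw [h])) ⟨⟨r, hr1.trans x.2⟩, hr1, hr2⟩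
    exact (countable_of_injective_of_countable_image Subtype.val_injective.injOn h1)
  let E : W → Set Q := fun a => {q | ∃ w, a ≤ w ∧ (q : P) ≤ p w}
  let D' : ℕ → Set Q := fun n => {q | ∃ d ∈ D n, (q : P) ≤ d}
  have hE : ∀ a, IsDenseBelow (E a) := by
    intro a q
    obtain ⟨w, hw, r, hr1, hr2⟩ := hp0 q q.2 a
    exact ⟨⟨r, hr1.trans q.2⟩, ⟨w, hw, hr2⟩, hr1⟩
  have hD' : ∀ n, IsDenseBelow (D' n) := by
    intro n q
    obtain ⟨r, hr1, hr2⟩ := hD n q
    exact ⟨⟨r, hr2.trans q.2⟩, ⟨r, hr1, le_rfl⟩, hr2⟩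
  obtain ⟨G, hG, hGD⟩ := hMA Q hQccc (range E ∪ range D') (by
    refine (Cardinal.mk_union_le _ _).trans ?_
    have h1 : Cardinal.mk (range E) ≤ Cardinal.aleph 1 :=
      Cardinal.mk_range_le.trans hWcard.le
    have h2 : Cardinal.mk (range D') ≤ Cardinal.aleph 1 :=
      Cardinal.mk_range_le.trans (by simp)
    exact Cardinal.add_le_of_le (Cardinal.aleph0_le_aleph 1) h1 h2) (by
    rintro _ (⟨a, rfl⟩ | ⟨n, rfl⟩)
    · exact hE a
    · exact hD' n)
  refine ⟨{x | ∃ q ∈ G, (q : P) ≤ x}, ⟨?_, ?_, ?_⟩, ?_, ?_⟩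
  · obtain ⟨q, hq⟩ := hG.nonempty
    exact ⟨q, q, hq, le_rfl⟩
  · rintro x ⟨q, hq, hqx⟩ y hxy
    exact ⟨q, hq, hqx.trans hxy⟩
  · rintro x ⟨q, hq, hqx⟩ y ⟨q', hq', hqy⟩
    obtain ⟨r, hr, hr1, hr2⟩ := hG.directed q hq q' hq'
    exact ⟨r, ⟨r, hr, le_rfl⟩, le_trans (show (r : P) ≤ q from hr1) hqx,
      le_trans (show (r : P) ≤ q' from hr2) hqy⟩
  · intro n
    obtain ⟨q, hqG, d, hd, hqd⟩ := hGD (D' n) (Or.inr ⟨n, rfl⟩)
    exact ⟨d, ⟨q, hqG, hqd⟩, hd⟩
  · intro a
    obtain ⟨q, hqG, w, hw, hqw⟩ := hGD (E a) (Or.inl ⟨a, rfl⟩)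
    exact ⟨w, hw, q, hqG, hqw⟩

end Pool.Agent.H83.Hull
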