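import Pool.Agent.H83.HullGeneric
import Pool.Agent.H83.HullAmalgam

/-!
`MA(ℵ₁)` refutes monotone Borel hulls on null sets together with open sets.
-/

open MeasureTheory Set Filter Topology

namespace Pool.Agent.H83.Hull

/-- The family consisting of all null sets and all open sets. -/
def nullOrOpen : Set (Set ℝ) := {A | volume A = 0 ∨ IsOpen A}

lemma step {ψ : Set ℝ → Set ℝ} (hψ : IsMonotoneHull nullOrOpen MeasurableSet ψ)
    (S : Set ℝ) (hS : S.Countable) :
    ∃ (K : Set ℝ) (x : ℝ), IsCompact K ∧ K ⊆ Icc 0 1 ∧ Disjoint K S ∧ x ∈ K ∧ x ∉ ψ Kᶜ := by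
  have hm : MeasurableSet (Icc (0 : ℝ) 1 \ S) := measurableSet_Icc.diff hS.measurableSet
  have hv : (0 : ENNReal) < volume (Icc (0 : ℝ) 1 \ S) := by
    rw [measure_sdiff_null (hS.measure_zero volume)]
    simp
  obtain ⟨K, hKs, hKc, hKpos⟩ := hm.exists_lt_isCompact hv
  have hmem : Kᶜ ∈ nullOrOpen := Or.inr hKc.isClosed.isOpen_compl
  have hnull := hψ.null_diff _ hmem
  obtain ⟨x, hx, hxψ⟩ : ∃ x ∈ K, x ∉ ψ Kᶜ := by
    by_contra hcon
    push Not at hcon
    have : K ⊆ ψ Kᶜ \ Kᶜ := fun x hx => ⟨hcon x hx, fun h => h hx⟩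
    exact hKpos.ne' (measure_mono_null this hnull)
  exact ⟨K, x, hKc, fun y hy => (hKs hy).1, Set.disjoint_left.2 fun y hy => (hKs hy).2, hx, hxψ⟩

lemma exists_sequence {W : Type} [LinearOrder W] [WellFoundedLT W]
    (hW : ∀ w : W, (Iic w).Countable) {ψ : Set ℝ → Set ℝ}
    (hψ : IsMonotoneHull nullOrOpen MeasurableSet ψ) :
    ∃ (K : W → Set ℝ) (x : W → ℝ), (∀ w, IsCompact (K w)) ∧ (∀ w, K w ⊆ Icc 0 1) ∧
      (∀ w, x w ∈ K w) ∧ (∀ w, x w ∉ ψ (K w)ᶜ) ∧ ∀ v w, v < w → x v ∉ K w := by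
  have hst := step hψ
  choose! Kf xf h1 h2 h3 h4 h5 using hst
  let x : W → ℝ := (wellFounded_lt : WellFounded ((· < ·) : W → W → Prop)).fix
    (fun w rec => xf {y | ∃ v, ∃ h : v < w, y = rec v h})
  have hx : ∀ w, x w = xf {y | ∃ v, ∃ _ : v < w, y = x v} := by
    intro w
    show (wellFounded_lt : WellFounded ((· < ·) : W → W → Prop)).fix _ w = _
    rw [WellFounded.fix_eq]
  have hc : ∀ w : W, {y | ∃ v, ∃ _ : v < w, y = x v}.Countable := by
    intro w
    refine (((hW w).image x).mono ?_)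
    rintro _ ⟨v, hv, rfl⟩
    exact ⟨v, hv.le, rfl⟩
  refine ⟨fun w => Kf {y | ∃ v, ∃ _ : v < w, y = x v}, x, fun w => h1 _ (hc w),
    fun w => h2 _ (hc w), ?_, ?_, ?_⟩
  · intro w
    rw [hx w]
    exact h4 _ (hc w)
  · intro w
    show x w ∉ ψ (Kf {y | ∃ v, ∃ _ : v < w, y = x v})ᶜ
    rw [hx w]
    exact h5 _ (hc w)
  · intro v w hvw hmem
    exact Set.disjoint_left.1 (h3 _ (hc w)) hmem ⟨v, hvw, rfl⟩

/-- The closed set coded by a finite set of rational intervals. -/
def cl (J : Finset (ℚ × ℚ)) : Set ℝ := ⋃ j ∈ J, Icc (j.1 : ℝ) (j.2 : ℝ)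

lemma isClosed_cl (J : Finset (ℚ × ℚ)) : IsClosed (cl J) :=
  isClosed_biUnion_finset fun _ _ => isClosed_Icc

/-- The conditions: a finite set of rational intervals and a finite set of indices. -/
structure Good {W : Type} (x : W → ℝ) (K : W → Set ℝ) (p : Finset (ℚ × ℚ) × Finset W) : Prop where
  mem : ∀ i ∈ p.2, ∃ j ∈ p.1, x i ∈ Ioo (j.1 : ℝ) (j.2 : ℝ)
  sep : ∀ i ∈ p.2, ∀ j ∈ p.1, x i ∈ Icc (j.1 : ℝ) (j.2 : ℝ) ∨
    Disjoint (Icc (j.1 : ℝ) (j.2 : ℝ)) (K i)
  free : Free x K p.2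

lemma shrink {W : Type} {x : W → ℝ} {K : W → Set ℝ} (hK : ∀ w, IsClosed (K w))
    (F : Finset W) (hF : Free x K F) (J : Finset (ℚ × ℚ))
    (hJ : ∀ i ∈ F, ∃ j ∈ J, x i ∈ Ioo (j.1 : ℝ) (j.2 : ℝ)) {δ : ℝ} (hδ : 0 < δ) :
    ∃ J' : Finset (ℚ × ℚ), Good x K (J', F) ∧ cl J' ⊆ cl J ∧ volume (cl J') < ENNReal.ofReal δ := by
  classical
  -- the small interval around `x i`
  have h : ∀ i ∈ F, ∃ j : ℚ × ℚ, x i ∈ Ioo (j.1 : ℝ) (j.2 : ℝ) ∧ Icc (j.1 : ℝ) (j.2 : ℝ) ⊆ cl J ∧
      (∀ k ∈ F, k ≠ i → Disjoint (Icc (j.1 : ℝ) (j.2 : ℝ)) (K k)) ∧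
      (j.2 : ℝ) - j.1 < δ / (F.card + 1) := by
    intro i hi
    obtain ⟨j₀, hj₀, hxi⟩ := hJ i hi
    set U : Set ℝ := Ioo (j₀.1 : ℝ) (j₀.2 : ℝ) ∩ ⋂ k ∈ F.erase i, (K k)ᶜ with hU
    have hUo : IsOpen U := by
      refine isOpen_Ioo.inter ?_
      exact isOpen_biInter_finset fun k _ => (hK k).isOpen_compl
    have hxU : x i ∈ U := by
      refine ⟨hxi, ?_⟩
      simp only [mem_iInter]
      intro k hk
      rw [Finset.mem_erase] at hk
      exact hF k hk.2 i hi hk.1
    obtain ⟨ε, hε, hεU⟩ := Metric.isOpen_iff.1 hUo _ hxU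
    set η := min (ε / 2) (δ / (F.card + 1) / 4) with hη
    have hη0 : 0 < η := by positivity
    have hη1 : η < ε := lt_of_le_of_lt (min_le_left _ _) (by linarith)
    have hη2 : η ≤ δ / (F.card + 1) / 4 := min_le_right _ _
    obtain ⟨a, ha1, ha2⟩ := exists_rat_btwn (show x i - η < x i by linarith)
    obtain ⟨b, hb1, hb2⟩ := exists_rat_btwn (show x i < x i + η by linarith)
    have hsub : Icc (a : ℝ) (b : ℝ) ⊆ U := by
      intro y hy
      apply hεU
      rw [Metric.mem_ball, Real.dist_eq, abs_lt]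
      constructor <;> linarith [hy.1, hy.2]
    refine ⟨(a, b), ⟨ha2, hb1⟩, ?_, ?_, ?_⟩
    · intro y hy
      exact mem_biUnion hj₀ (Ioo_subset_Icc_self (hsub hy).1)
    · intro k hk hki
      rw [Set.disjoint_left]
      intro y hy hyK
      have := (hsub hy).2
      simp only [mem_iInter] at this
      exact this k (Finset.mem_erase.2 ⟨hki, hk⟩) hyK
    · show (b : ℝ) - a < _
      have : 0 < δ / (F.card + 1) := by positivity
      linarith
  choose! j hj1 hj2 hj3 hj4 using h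
  refine ⟨F.image j, ⟨?_, ?_, hF⟩, ?_, ?_⟩
  · intro i hi
    exact ⟨j i, Finset.mem_image_of_mem j hi, hj1 i hi⟩
  · intro i hi j' hj'
    obtain ⟨k, hk, rfl⟩ := Finset.mem_image.1 hj'
    by_cases hki : i = k
    · left
      rw [hki]
      exact Ioo_subset_Icc_self (hj1 k hk)
    · right
      exact hj3 k hk i hi hki
  · intro y hy
    simp only [cl, mem_iUnion] at hy
    obtain ⟨j', hj', hy⟩ := hy
    obtain ⟨k, hk, rfl⟩ := Finset.mem_image.1 hj'
    exact hj2 k hk hy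
  · calc volume (cl (F.image j)) ≤ ∑ j' ∈ F.image j, volume (Icc (j'.1 : ℝ) (j'.2 : ℝ)) :=
          measure_biUnion_finset_le _ _
      _ ≤ ∑ j' ∈ F.image j, ENNReal.ofReal (δ / (F.card + 1)) := by
          apply Finset.sum_le_sum
          intro j' hj'
          obtain ⟨k, hk, rfl⟩ := Finset.mem_image.1 hj'
          rw [Real.volume_Icc]
          exact ENNReal.ofReal_le_ofReal (hj4 k hk).le
      _ = (F.image j).card * ENNReal.ofReal (δ / (F.card + 1)) := by
          rw [Finset.sum_const, nsmul_eq_mul]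
      _ ≤ F.card * ENNReal.ofReal (δ / (F.card + 1)) := by
          gcongr
          exact Finset.card_image_le
      _ = ENNReal.ofReal (F.card * (δ / (F.card + 1))) := by
          rw [ENNReal.ofReal_mul (by positivity), ENNReal.ofReal_natCast]
      _ < ENNReal.ofReal δ := by
          rw [ENNReal.ofReal_lt_ofReal_iff hδ]
          have h1 : (F.card : ℝ) * (δ / (F.card + 1)) = δ * (F.card / (F.card + 1)) := by ring
          rw [h1]
          have h2 : (F.card : ℝ) / (F.card + 1) < 1 := by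
            rw [div_lt_one (by positivity)]
            linarith
          nlinarith

/-- The poset of conditions. -/
def Cond {W : Type} (x : W → ℝ) (K : W → Set ℝ) : Type :=
  {p : Finset (ℚ × ℚ) × Finset W // Good x K p}

instance {W : Type} (x : W → ℝ) (K : W → Set ℝ) : Preorder (Cond x K) where
  le p q := q.1.2 ⊆ p.1.2 ∧ cl p.1.1 ⊆ cl q.1.1
  le_refl _ := ⟨subset_rfl, subset_rfl⟩
  le_trans _ _ _ hpq hqr := ⟨hqr.1.trans hpq.1, hpq.2.trans hqr.2⟩

/-- Under `MA(ℵ₁)` and `ℵ₁ < 2^ℵ₀` there is no monotone Borel hull operation on the family of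
all null sets and all open sets. -/
theorem no_hull_nullOrOpen (hMA : MartinsAxiomAt (Cardinal.aleph 1))
    (hCH : (Cardinal.aleph 1 : Cardinal.{0}) < Cardinal.continuum) :
    ¬ ∃ ψ : Set ℝ → Set ℝ, IsMonotoneHull nullOrOpen MeasurableSet ψ := by
  classical
  rintro ⟨ψ, hψ⟩
  let W : Type := (Cardinal.aleph 1).ord.ToType
  have hWcard : Cardinal.mk W = Cardinal.aleph 1 := Cardinal.mk_ord_toType _
  have hIio : ∀ w : W, (Iio w).Countable := by
    intro w
    rw [← Cardinal.le_aleph0_iff_set_countable]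
    have h1 : Cardinal.mk (Iio w) < Cardinal.aleph 1 := Cardinal.mk_Iio_toType_ord_lt w
    exact Order.lt_succ_iff.1 (h1.trans_eq Cardinal.succ_aleph0.symm)
  have hIic : ∀ w : W, (Iic w).Countable := by
    intro w
    rw [← Iio_insert]
    exact (hIio w).insert w
  have hunc : ¬ (univ : Set W).Countable := by
    rw [← Cardinal.le_aleph0_iff_set_countable, Cardinal.mk_univ, hWcard]
    exact not_le.2 Cardinal.aleph0_lt_aleph_one
  have hbdd : ∀ s : Set W, s.Countable → ∃ a : W, ∀ b ∈ s, b ≤ a := by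
    intro s hs
    by_contra hcon
    push Not at hcon
    apply hunc
    refine (hs.biUnion fun b _ => hIio b).mono ?_
    intro a _
    obtain ⟨b, hb, hab⟩ := hcon a
    exact mem_biUnion hb hab
  obtain ⟨K, x, hKc, hK01, hxK, hxψ, hprev⟩ := exists_sequence (W := W) hIic hψ
  have hKcl : ∀ w, IsClosed (K w) := fun w => (hKc w).isClosed
  have hxinj : Function.Injective x := by
    intro v w hvw
    by_contra hne
    rcases lt_or_gt_of_ne hne with h | h
    · exact hprev v w h (hvw ▸ hxK w)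
    · exact hprev w v h (hvw ▸ hxK v)
  -- the poset
  let P := Cond x K
  have hle : ∀ p q : P, p ≤ q ↔ q.1.2 ⊆ p.1.2 ∧ cl p.1.1 ⊆ cl q.1.1 := fun p q => Iff.rfl
  have hcomp : ∀ p q : P, p.1.1 = q.1.1 → Free x K (p.1.2 ∪ q.1.2) → Compatible p q := by
    intro p q hJ hfree
    obtain ⟨J', hgood, hsub, -⟩ := shrink hKcl (p.1.2 ∪ q.1.2) hfree p.1.1 (by
      intro i hi
      rcases Finset.mem_union.1 hi with hi | hi
      · exact p.2.mem i hi
      · rw [hJ]; exact q.2.mem i hi) (δ := 1) one_pos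
    refine ⟨⟨(J', p.1.2 ∪ q.1.2), hgood⟩, ?_, ?_⟩
    · exact ⟨Finset.subset_union_left, hsub⟩
    · exact ⟨Finset.subset_union_right, hJ ▸ hsub⟩
  have hccc : CountableChainCondition P := by
    intro A hA
    by_contra hunA
    obtain ⟨J₀, hJ₀⟩ : ∃ J₀ : Finset (ℚ × ℚ), ¬ {p ∈ A | p.1.1 = J₀}.Countable := by
      by_contra hcon
      push Not at hcon
      apply hunA
      refine (countable_iUnion hcon).mono ?_
      intro p hp
      exact mem_iUnion.2 ⟨p.1.1, hp, rfl⟩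
    set A' : Set P := {p ∈ A | p.1.1 = J₀} with hA'
    have hinj : InjOn (fun p : P => p.1.2) A' := by
      intro p hp q hq hpq
      apply Subtype.ext
      exact Prod.ext (hp.2.trans hq.2.symm) hpq
    have hF : ¬ ((fun p : P => p.1.2) '' A').Countable := by
      intro h
      exact hJ₀ (countable_of_injective_of_countable_image hinj h)
    obtain ⟨_, ⟨p, hp, rfl⟩, _, ⟨q, hq, rfl⟩, hne, hfr⟩ := exists_amalgam hIic hbdd hKcl hprev
      ((fun p : P => p.1.2) '' A') hF (by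
        rintro _ ⟨p, hp, rfl⟩
        exact p.2.free)
    exact hA p hp.1 q hq.1 (fun h => hne (by rw [h]))
      (hcomp p q (hp.2.trans hq.2.symm) (fun i hi j hj hij =>
        hfr i (Finset.mem_union.1 hi) j (Finset.mem_union.1 hj) hij))
  -- the conditions `p w` and the dense sets
  let J1 : Finset (ℚ × ℚ) := {((-1 : ℚ), (2 : ℚ))}
  have hJ1 : ∀ w, x w ∈ Ioo (((-1 : ℚ) : ℝ)) ((2 : ℚ) : ℝ) := by
    intro w
    have := hK01 w (hxK w)
    constructor
    · push_cast; linarith [this.1]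
    · push_cast; linarith [this.2]
  have hgood1 : ∀ w : W, Good x K (J1, {w}) := by
    intro w
    refine ⟨?_, ?_, ?_⟩
    · intro i _
      exact ⟨(-1, 2), Finset.mem_singleton_self _, hJ1 i⟩
    · intro i _ j hj
      left
      have hj' : j = ((-1 : ℚ), (2 : ℚ)) := Finset.mem_singleton.1 hj
      rw [hj']
      exact Ioo_subset_Icc_self (hJ1 i)
    · intro i hi j hj hij
      rw [Finset.mem_singleton] at hi hj
      exact absurd (hi.trans hj.symm) hij
  let pw : W → P := fun w => ⟨(J1, {w}), hgood1 w⟩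
  let D : ℕ → Set P := fun n => {p | volume (cl p.1.1) < ENNReal.ofReal (1 / ((n : ℝ) + 1))}
  have hD : ∀ n, IsDenseBelow (D n) := by
    intro n p
    obtain ⟨J', hgood, hsub, hvol⟩ := shrink hKcl p.1.2 p.2.free p.1.1 p.2.mem
      (δ := 1 / ((n : ℝ) + 1)) (by positivity)
    exact ⟨⟨(J', p.1.2), hgood⟩, hvol, ⟨subset_rfl, hsub⟩⟩
  obtain ⟨G, hG, hGD, hGw⟩ := exists_generic hWcard hbdd hMA hccc pw D hD
  set Ξ : Set W := {w | pw w ∈ G} with hΞ
  set Pc : Set ℝ := ⋂ p ∈ G, cl p.1.1 with hPc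
  have hPclosed : IsClosed Pc := isClosed_biInter fun p _ => isClosed_cl _
  -- `x w ∈ Pc` for `w ∈ Ξ`
  have hxP : ∀ w ∈ Ξ, x w ∈ Pc := by
    intro w hw
    refine mem_iInter₂.2 fun p hp => ?_
    obtain ⟨r, hr, hr1, hr2⟩ := hG.directed p hp (pw w) hw
    have hwr : w ∈ r.1.2 := hr2.1 (Finset.mem_singleton_self w)
    obtain ⟨j, hj, hxj⟩ := r.2.mem w hwr
    exact hr1.2 (mem_biUnion hj (Ioo_subset_Icc_self hxj))
  -- `Pc ∩ K w = {x w}` for `w ∈ Ξ`
  have hPK : ∀ w ∈ Ξ, ∀ y ∈ Pc, y ∈ K w → y = x w := by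
    intro w hw y hyP hyK
    by_contra hne
    have hpos : 0 < |y - x w| := abs_pos.2 (sub_ne_zero.2 hne)
    obtain ⟨n, hn⟩ := exists_nat_one_div_lt hpos
    obtain ⟨d, hdG, hd⟩ := hGD n
    obtain ⟨r, hr, hr1, hr2⟩ := hG.directed d hdG (pw w) hw
    have hwr : w ∈ r.1.2 := hr2.1 (Finset.mem_singleton_self w)
    have hyr : y ∈ cl r.1.1 := mem_iInter₂.1 hyP r hr
    simp only [cl, mem_iUnion] at hyr
    obtain ⟨j, hj, hyj⟩ := hyr
    have hxj : x w ∈ Icc (j.1 : ℝ) (j.2 : ℝ) := by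
      rcases r.2.sep w hwr j hj with h | h
      · exact h
      · exact absurd hyK (Set.disjoint_left.1 h hyj)
    have hvol : volume (Icc (j.1 : ℝ) (j.2 : ℝ)) < ENNReal.ofReal (1 / ((n : ℝ) + 1)) := by
      refine lt_of_le_of_lt (measure_mono ?_) hd
      refine subset_trans ?_ hr1.2
      intro z hz
      exact mem_biUnion hj hz
    rw [Real.volume_Icc, ENNReal.ofReal_lt_ofReal_iff (by positivity)] at hvol
    have : |y - x w| ≤ (j.2 : ℝ) - j.1 := by
      rw [abs_le]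
      constructor <;> linarith [hyj.1, hyj.2, hxj.1, hxj.2]
    linarith
  -- `Pc` is null
  have hPnull : volume Pc = 0 := by
    apply le_antisymm _ (zero_le)
    apply le_of_forall_pos_le_add
    intro ε hε
    rw [zero_add]
    obtain ⟨n, hn⟩ := ENNReal.exists_inv_nat_lt hε.ne'
    obtain ⟨d, hdG, hd⟩ := hGD n
    calc volume Pc ≤ volume (cl d.1.1) := measure_mono (biInter_subset_of_mem hdG)
      _ ≤ ENNReal.ofReal (1 / ((n : ℝ) + 1)) := (show volume (cl d.1.1) < _ from hd).le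
      _ ≤ (n : ENNReal)⁻¹ := by
        rcases Nat.eq_zero_or_pos n with rfl | hn0
        · simp
        · rw [← ENNReal.ofReal_natCast n, ← ENNReal.ofReal_inv_of_pos (by exact_mod_cast hn0)]
          apply ENNReal.ofReal_le_ofReal
          rw [one_div]
          apply inv_anti₀ (by exact_mod_cast hn0)
          linarith
      _ ≤ ε := hn.le
  set S : Set ℝ := x '' Ξ with hS
  have hΓnull : (Pc \ S) ∈ nullOrOpen := Or.inl (measure_mono_null sdiff_subset hPnull)
  have hSeq : S = Pc \ ψ (Pc \ S) := by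
    apply Subset.antisymm
    · rintro _ ⟨w, hw, rfl⟩
      refine ⟨hxP w hw, ?_⟩
      intro hmem
      have hsub : Pc \ S ⊆ (K w)ᶜ := by
        rintro y ⟨hyP, hyS⟩ hyK
        exact hyS ⟨w, hw, (hPK w hw y hyP hyK).symm⟩
      exact hxψ w (hψ.mono _ hΓnull _ (Or.inr (hKcl w).isOpen_compl) hsub hmem)
    · rintro y ⟨hyP, hyψ⟩
      by_contra hyS
      exact hyψ (hψ.subset_hull _ hΓnull ⟨hyP, hyS⟩)
  have hSm : MeasurableSet S := by
    rw [hSeq]
    exact hPclosed.measurableSet.diff (hψ.mem_class _ hΓnull)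
  have hΞunc : ¬ Ξ.Countable := by
    intro hc
    obtain ⟨a, ha⟩ := hbdd Ξ hc
    -- there is an element strictly above `a`
    obtain ⟨b, hb⟩ : ∃ b : W, a < b := by
      by_contra hcon
      push Not at hcon
      exact hunc ((hIic a).mono fun b _ => hcon b)
    obtain ⟨w, hw, hwG⟩ := hGw b
    exact absurd (ha w hwG) (not_le.2 (hb.trans_le hw))
  have hSunc : ¬ S.Countable := by
    intro hc
    exact hΞunc (countable_of_injective_of_countable_image hxinj.injOn hc)
  -- cardinality contradiction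
  have hle1 : Cardinal.mk S ≤ Cardinal.aleph 1 :=
    (Cardinal.mk_image_le).trans ((Cardinal.mk_set_le Ξ).trans hWcard.le)
  have : StandardBorelSpace S := hSm.standardBorel
  have hSunc' : ¬ Countable S := fun h => hSunc (by rwa [countable_coe_iff] at h)
  have e := PolishSpace.measurableEquivNatBoolOfNotCountable hSunc'
  have hcard : Cardinal.mk S = Cardinal.continuum := by
    rw [Cardinal.mk_congr e.toEquiv]
    simp
  rw [hcard] at hle1
  exact absurd hle1 (not_le.2 hCH)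

end Pool.Agent.H83.Hull
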