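import Pool.Agent.H83.HullBasic

/-!
Construction of a monotone hull operation from a cofinal family of null sets indexed by a
well-order all of whose initial segments are countable.
-/

open MeasureTheory Set Filter Topology

namespace Pool.Agent.H83.Hull

/-- Every null set is contained in a null `Gδ` set. -/
lemma exists_isGδ_null {S : Set ℝ} (hS : volume S = 0) :
    ∃ G : Set ℝ, S ⊆ G ∧ IsGδ G ∧ volume G = 0 := by
  have h : ∀ n : ℕ, ∃ U : Set ℝ, S ⊆ U ∧ IsOpen U ∧ volume U ≤ ((n : ENNReal) + 1)⁻¹ := by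
    intro n
    obtain ⟨U, hU, hUo, hUle⟩ := S.exists_isOpen_le_add (volume : Measure ℝ)
      (ε := ((n : ENNReal) + 1)⁻¹) (by simp)
    exact ⟨U, hU, hUo, by simpa [hS] using hUle⟩
  choose U hSU hUo hUle using h
  refine ⟨⋂ n, U n, subset_iInter hSU, IsGδ.iInter_of_isOpen hUo, ?_⟩
  apply le_antisymm _ (zero_le)
  apply le_of_forall_pos_le_add
  intro ε hε
  rw [zero_add]
  obtain ⟨n, hn⟩ := ENNReal.exists_inv_nat_lt hε.ne'
  calc volume (⋂ n, U n) ≤ volume (U n) := measure_mono (iInter_subset _ n)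
    _ ≤ ((n : ENNReal) + 1)⁻¹ := hUle n
    _ ≤ (n : ENNReal)⁻¹ := ENNReal.inv_le_inv.2 (by simp)
    _ ≤ ε := hn.le

/-- The family of closed sets used as a dense family in the measure algebra. -/
lemma dense_family {ι : Type*} (𝓝f : ι → Set ℝ) (hcof : ∀ A : Set ℝ, volume A = 0 → ∃ i, A ⊆ 𝓝f i)
    (hnull : ∀ i, volume (𝓝f i) = 0) :
    ∃ D : ι × (ℚ × ℚ × ℚ) → Set ℝ, (∀ t, IsClosed (D t)) ∧
      ∀ E : Set ℝ, IsClosed E → volume E ≠ 0 → ∃ t, D t ⊆ E ∧ volume (D t) ≠ 0 := by
  choose P hPc hPd hPne hPs using fun i => exists_selfsupported (hnull i)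
  refine ⟨fun t => {x | x + (t.2.2.2 : ℝ) ∈ P t.1 ∩ Icc (t.2.1 : ℝ) (t.2.2.1 : ℝ)}, ?_, ?_⟩
  · intro t
    exact ((hPc t.1).inter isClosed_Icc).preimage (continuous_id.add continuous_const)
  · intro E hEc hE
    obtain ⟨i, hi⟩ := hcof _ (null_compl_iUnion_rat_translate hEc.measurableSet hE)
    -- `P i` is covered by the rational translates of `E`
    have hcov : P i ⊆ ⋃ q : ℚ, {x : ℝ | x - (q : ℝ) ∈ E} := by
      intro x hx
      by_contra hxn
      exact (Set.disjoint_left.1 (hPd i)) hx (hi hxn)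
    have : CompleteSpace (P i) := (hPc i).completeSpace_coe
    have : Nonempty (P i) := (hPne i).to_subtype
    obtain ⟨q, z, hz⟩ := nonempty_interior_of_iUnion_of_closed
      (f := fun q : ℚ => {x : P i | (x : ℝ) - (q : ℝ) ∈ E})
      (fun q => hEc.preimage (continuous_subtype_val.sub continuous_const))
      (by
        ext x
        simp only [mem_iUnion, mem_univ, iff_true]
        have := hcov x.2
        rwa [mem_iUnion] at this)
    rw [mem_interior_iff_mem_nhds, nhds_subtype_eq_comap, mem_comap] at hz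
    obtain ⟨W, hW, hWE⟩ := hz
    obtain ⟨ε, hε, hεW⟩ := Metric.mem_nhds_iff.1 hW
    obtain ⟨a, ha1, ha2⟩ := exists_rat_btwn (show (z : ℝ) - ε < z by linarith)
    obtain ⟨b, hb1, hb2⟩ := exists_rat_btwn (show (z : ℝ) < z + ε by linarith)
    refine ⟨(i, a, b, q), ?_, ?_⟩
    · intro x hx
      simp only [mem_ofPred_eq] at hx
      have hxW : x + (q : ℝ) ∈ W := by
        apply hεW
        rw [Metric.mem_ball, Real.dist_eq, abs_lt]
        constructor <;> linarith [hx.2.1, hx.2.2]
      have := hWE (show (⟨x + q, hx.1⟩ : P i) ∈ Subtype.val ⁻¹' W from hxW)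
      simpa using this
    · have hne : (P i ∩ Ioo (a : ℝ) (b : ℝ)).Nonempty := ⟨z, z.2, ha2, hb1⟩
      have hpos := hPs i _ isOpen_Ioo hne
      have hvol : volume {x : ℝ | x + (q : ℝ) ∈ P i ∩ Icc (a : ℝ) (b : ℝ)} =
          volume (P i ∩ Icc (a : ℝ) (b : ℝ)) :=
        measure_preimage_add_right volume (q : ℝ) (P i ∩ Icc (a : ℝ) (b : ℝ))
      simp only
      rw [hvol]
      intro h0
      exact hpos (measure_mono_null (inter_subset_inter_right _ Ioo_subset_Icc_self) h0)

/-- Exhaustion of the complement of a measurable set by countably many members of the dense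
family. -/
lemma exhaustion {T : Type*} {D : T → Set ℝ} (hDc : ∀ t, IsClosed (D t))
    (hD : ∀ E : Set ℝ, IsClosed E → volume E ≠ 0 → ∃ t, D t ⊆ E ∧ volume (D t) ≠ 0)
    {A : Set ℝ} (hA : NullMeasurableSet A volume) :
    ∃ I : Set T, I.Countable ∧ (∀ t ∈ I, volume (D t ∩ A) = 0) ∧
      volume (Aᶜ \ ⋃ t ∈ I, D t) = 0 := by
  obtain ⟨I, hI⟩ : ∃ I : Set T, Maximal (fun I : Set T =>
      (∀ t ∈ I, volume (D t ∩ A) = 0 ∧ 0 < volume (D t)) ∧ I.PairwiseDisjoint D) I := by
    apply zorn_subset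
    intro c hc hchain
    refine ⟨⋃₀ c, ⟨?_, ?_⟩, fun s hs => subset_sUnion_of_mem hs⟩
    · rintro t ⟨s, hs, hts⟩
      exact (hc hs).1 t hts
    · exact Set.pairwiseDisjoint_sUnion hchain.directedOn |>.2 fun s hs => (hc hs).2
  have hIc : I.Countable := by
    have h := Measure.countable_meas_pos_of_disjoint_iUnion (μ := (volume : Measure ℝ))
      (As := fun t : I => D t) (fun t => (hDc t).measurableSet)
      (fun s t hst => hI.1.2 s.2 t.2 (fun h => hst (Subtype.ext h)))
    have h2 : {i : I | 0 < (volume : Measure ℝ) (D i)} = univ := by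
      ext i
      simp only [mem_ofPred_eq, mem_univ, iff_true]
      exact (hI.1.1 i i.2).2
    rw [h2, countable_univ_iff] at h
    exact h
  refine ⟨I, hIc, fun t ht => (hI.1.1 t ht).1, ?_⟩
  by_contra hpos
  have hUm : MeasurableSet (⋃ t ∈ I, D t) :=
    MeasurableSet.biUnion hIc fun t _ => (hDc t).measurableSet
  have hnm : NullMeasurableSet (Aᶜ \ ⋃ t ∈ I, D t) (volume : Measure ℝ) :=
    hA.compl.diff hUm.nullMeasurableSet
  obtain ⟨B, hBsub, hBm, hBae⟩ := hnm.exists_measurable_subset_ae_eq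
  have hBpos : (0 : ENNReal) < volume B := by
    rw [measure_congr hBae]
    exact pos_iff_ne_zero.2 hpos
  obtain ⟨K, hKsub, hKc, hKpos⟩ := hBm.exists_lt_isCompact hBpos
  obtain ⟨t, htK, htpos⟩ := hD K hKc.isClosed hKpos.ne'
  have htsub : D t ⊆ Aᶜ \ ⋃ t ∈ I, D t := htK.trans (hKsub.trans hBsub)
  have htI : t ∉ I := by
    intro htI
    apply htpos
    have : D t = ∅ := by
      rw [eq_empty_iff_forall_notMem]
      intro x hx
      exact (htsub hx).2 (mem_biUnion htI hx)
    rw [this, measure_empty]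
  have hins : (∀ s ∈ insert t I, volume (D s ∩ A) = 0 ∧ 0 < volume (D s)) ∧
      (insert t I).PairwiseDisjoint D := by
    refine ⟨?_, ?_⟩
    · intro s hs
      rcases mem_insert_iff.1 hs with rfl | hs
      · refine ⟨?_, pos_iff_ne_zero.2 htpos⟩
        have : D s ∩ A = ∅ := by
          rw [eq_empty_iff_forall_notMem]
          rintro x ⟨hx, hxA⟩
          exact (htsub hx).1 hxA
        rw [this, measure_empty]
      · exact hI.1.1 s hs
    · apply hI.1.2.insert
      intro s hs _
      rw [Set.disjoint_left]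
      intro x hx hxs
      exact (htsub hx).2 (mem_biUnion hs hxs)
  exact htI (hI.2 hins (subset_insert t I) (mem_insert t I))

/-- A null `Gδ` superset of a null set (junk value for non-null sets). -/
noncomputable def gd (S : Set ℝ) : Set ℝ :=
  open Classical in
  if h : volume S = 0 then Classical.choose (exists_isGδ_null h) else univ

lemma gd_spec {S : Set ℝ} (h : volume S = 0) : S ⊆ gd S ∧ IsGδ (gd S) ∧ volume (gd S) = 0 := by
  unfold gd
  rw [dif_pos h]
  exact Classical.choose_spec (exists_isGδ_null h)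

/-- An increasing tower of null `Gδ` sets majorising the sets `B w`. -/
noncomputable def tower {W : Type*} [LinearOrder W] [WellFoundedLT W] (B : W → Set ℝ) :
    W → Set ℝ :=
  (wellFounded_lt : WellFounded ((· < ·) : W → W → Prop)).fix
    (fun w rec => gd ((⋃ v : W, ⋃ h : v < w, rec v h) ∪ B w))

lemma tower_eq {W : Type*} [LinearOrder W] [WellFoundedLT W] (B : W → Set ℝ) (w : W) :
    tower B w = gd ((⋃ v : W, ⋃ _ : v < w, tower B v) ∪ B w) := by
  unfold tower
  rw [WellFounded.fix_eq]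

lemma tower_null {W : Type*} [LinearOrder W] [WellFoundedLT W] (hW : ∀ w : W, (Iio w).Countable)
    {B : W → Set ℝ} (hB : ∀ w, volume (B w) = 0) (w : W) :
    volume ((⋃ v : W, ⋃ _ : v < w, tower B v) ∪ B w) = 0 := by
  induction w using WellFoundedLT.induction with
  | ind w ih =>
    rw [measure_union_null_iff]
    refine ⟨?_, hB w⟩
    have h1 : (⋃ v : W, ⋃ _ : v < w, tower B v) = ⋃ v ∈ Iio w, tower B v := rfl
    rw [h1, measure_biUnion_null_iff (hW w)]
    intro v hv
    rw [tower_eq]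
    exact (gd_spec (ih v hv)).2.2

section Main

variable {W : Type*} [LinearOrder W] [WellFoundedLT W]

/-- The basic sets `C w`. -/
noncomputable def Cset (O : W → Set ℝ) (N : W → Set ℝ) (w : W) : Set ℝ := O w ∪ N w

/-- Intersection of the basic sets up to `a` containing `A`. -/
def Jset (O : W → Set ℝ) (N : W → Set ℝ) (a : W) (A : Set ℝ) : Set ℝ :=
  ⋂ w ∈ {w : W | w ≤ a ∧ A ⊆ O w ∪ N w}, (O w ∪ N w)

omit [WellFoundedLT W] in
lemma subset_Jset (O N : W → Set ℝ) (a : W) (A : Set ℝ) : A ⊆ Jset O N a A :=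
  subset_iInter₂ fun _ hw => hw.2

open Classical in
/-- The hull operation. -/
noncomputable def hull (O N : W → Set ℝ) (A : Set ℝ) : Set ℝ :=
  if h : {a : W | Jset O N a A ⊆ A ∪ N a}.Nonempty then
    Jset O N ((wellFounded_lt : WellFounded ((· < ·) : W → W → Prop)).min _ h) A
  else univ

lemma hull_spec (O N : W → Set ℝ) {A : Set ℝ} (h : {a : W | Jset O N a A ⊆ A ∪ N a}.Nonempty) :
    ∃ a : W, Jset O N a A ⊆ A ∪ N a ∧ hull O N A = Jset O N a A := by
  refine ⟨(wellFounded_lt : WellFounded ((· < ·) : W → W → Prop)).min _ h, ?_, ?_⟩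
  · exact (wellFounded_lt : WellFounded ((· < ·) : W → W → Prop)).min_mem _ h
  · unfold hull
    rw [dif_pos h]

lemma hull_mono (O N : W → Set ℝ) (hN : Monotone N) {A A' : Set ℝ}
    (hA : {a : W | Jset O N a A ⊆ A ∪ N a}.Nonempty)
    (hA' : {a : W | Jset O N a A' ⊆ A' ∪ N a}.Nonempty) (h : A ⊆ A') :
    hull O N A ⊆ hull O N A' := by
  obtain ⟨a, ha, e⟩ := hull_spec O N hA
  obtain ⟨a', ha', e'⟩ := hull_spec O N hA'
  rw [e, e']
  apply subset_iInter₂
  rintro w ⟨hw1, hw2⟩
  by_cases hwa : w ≤ a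
  · exact biInter_subset_of_mem (show w ∈ {w : W | w ≤ a ∧ A ⊆ O w ∪ N w} from
      ⟨hwa, h.trans hw2⟩)
  · push Not at hwa
    refine ha.trans (union_subset (h.trans hw2) ?_)
    exact (hN hwa.le).trans subset_union_right

end Main

end Pool.Agent.H83.Hull
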