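import Mathlib

/-! Regularity of the linear refinement number: combinatorial part. -/

namespace Pool.Agent.H83.LR

open Set Filter Cardinal

/-- almost inclusion -/
def ASub {α : Type} (B A : Set α) : Prop := (B \ A).Finite

/-- centered families: every finite subfamily has infinite intersection -/
def Centered {α : Type} (F : Set (Set α)) : Prop :=
  ∀ S : Set (Set α), S ⊆ F → S.Finite → (⋂₀ S).Infinite

/-- families of infinite sets linearly ordered by almost inclusion -/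
def Linear {α : Type} (G : Set (Set α)) : Prop :=
  (∀ B ∈ G, B.Infinite) ∧ ∀ B ∈ G, ∀ C ∈ G, ASub B C ∨ ASub C B

/-- `G` refines `F` -/
def Refines {α : Type} (G F : Set (Set α)) : Prop :=
  ∀ A ∈ F, ∃ B ∈ G, ASub B A

variable {α β : Type}

theorem ASub.refl (A : Set α) : ASub A A := by simp [ASub]

theorem ASub.of_subset {A B : Set α} (h : A ⊆ B) : ASub A B := by
  simp [ASub, sdiff_eq_empty.2 h]

theorem ASub.trans {A B C : Set α} (h : ASub A B) (h' : ASub B C) : ASub A C := by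
  refine (Set.Finite.union h h').subset ?_
  rintro x ⟨hx, hx'⟩
  by_cases hb : x ∈ B
  · exact Or.inr ⟨hb, hx'⟩
  · exact Or.inl ⟨hx, hb⟩

theorem ASub.image (f : α → β) {A B : Set α} (h : ASub A B) : ASub (f '' A) (f '' B) := by
  refine (Set.Finite.image f h).subset ?_
  rintro _ ⟨⟨x, hx, rfl⟩, hx'⟩
  exact ⟨x, ⟨hx, fun hb => hx' ⟨x, hb, rfl⟩⟩, rfl⟩

theorem ASub.mem_filter {A B : Set α} (h : ASub A B) {V : Filter α} (hV : V ≤ cofinite)
    (hA : A ∈ V) : B ∈ V := by
  have h1 : (A \ B)ᶜ ∈ V := hV (by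
    show ((A \ B)ᶜ)ᶜ.Finite
    rw [compl_compl]; exact h)
  filter_upwards [hA, h1] with x hx hx'
  by_contra hb
  exact hx' ⟨hx, hb⟩

theorem Refines.trans {F G H : Set (Set α)} (h : Refines H G) (h' : Refines G F) :
    Refines H F := by
  intro A hA
  obtain ⟨B, hB, hBA⟩ := h' A hA
  obtain ⟨C, hC, hCB⟩ := h B hB
  exact ⟨C, hC, hCB.trans hBA⟩

theorem Centered.mono {F F' : Set (Set α)} (h : Centered F') (hF : F ⊆ F') : Centered F :=
  fun S hS hf => h S (hS.trans hF) hf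

/-- the filter criterion -/
theorem centered_of_filter {F : Set (Set α)} (V : Filter α) [hV : V.NeBot] (hc : V ≤ cofinite)
    (hF : ∀ A ∈ F, A ∈ V) : Centered F := by
  intro S hS hf hfin
  have h1 : ⋂₀ S ∈ V := (sInter_mem hf).2 (fun A hA => hF A (hS hA))
  have h2 : (⋂₀ S)ᶜ ∈ V := hc (by
    show ((⋂₀ S)ᶜ)ᶜ.Finite
    rw [compl_compl]; exact hfin)
  exact (compl_notMem h1) h2

theorem Centered.exists_filter {F : Set (Set α)} (h : Centered F) :
    ∃ V : Filter α, V.NeBot ∧ V ≤ cofinite ∧ ∀ A ∈ F, A ∈ V := by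
  refine ⟨Filter.generate (F ∪ {A | Aᶜ.Finite}), ?_, ?_, ?_⟩
  · rw [Filter.generate_neBot_iff]
    intro t ht hfin
    have h1 : (⋂₀ (t ∩ F)).Infinite := h _ inter_subset_right (hfin.subset inter_subset_left)
    have h2 : ((⋂₀ (t \ F))ᶜ).Finite := by
      have : (⋂₀ (t \ F)) ∈ (cofinite : Filter α) := by
        refine (sInter_mem (hfin.subset sdiff_subset)).2 ?_
        rintro A ⟨hA, hA'⟩
        rcases ht hA with h3 | h3
        · exact absurd h3 hA'
        · exact h3
      exact this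
    obtain ⟨x, hx, hx'⟩ := (h1.diff h2).nonempty
    refine ⟨x, ?_⟩
    intro A hA
    by_cases hAF : A ∈ F
    · exact hx A ⟨hA, hAF⟩
    · by_contra hxA
      refine hx' ?_
      intro hall
      exact hxA (hall A ⟨hA, hAF⟩)
  · intro A hA
    exact Filter.mem_generate_of_mem (Or.inr hA)
  · intro A hA
    exact Filter.mem_generate_of_mem (Or.inl hA)

theorem Linear.exists_min {G : Set (Set α)} (hG : Linear G) (S : Set (Set α)) (hS : S ⊆ G)
    (hf : S.Finite) (hne : S.Nonempty) : ∃ B ∈ S, ∀ A ∈ S, ASub B A := by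
  induction S, hf using Set.Finite.induction_on with
  | empty => exact absurd hne (by simp)
  | @insert a s has hs ih =>
    by_cases hse : s.Nonempty
    · obtain ⟨B, hB, hBA⟩ := ih ((subset_insert _ _).trans hS) hse
      rcases hG.2 a (hS (mem_insert _ _)) B (hS (mem_insert_of_mem _ hB)) with h | h
      · refine ⟨a, mem_insert _ _, ?_⟩
        intro A hA
        rcases hA with rfl | hA
        · exact ASub.refl _
        · exact h.trans (hBA A hA)
      · refine ⟨B, mem_insert_of_mem _ hB, ?_⟩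
        intro A hA
        rcases hA with rfl | hA
        · exact h
        · exact hBA A hA
    · rw [not_nonempty_iff_eq_empty] at hse
      subst hse
      refine ⟨a, mem_insert _ _, ?_⟩
      intro A hA
      rcases hA with rfl | hA
      · exact ASub.refl _
      · exact absurd hA (by simp)

theorem Linear.centered [Infinite α] {G : Set (Set α)} (hG : Linear G) : Centered G := by
  intro S hS hf
  by_cases hne : S.Nonempty
  · obtain ⟨B, hB, hBA⟩ := hG.exists_min S hS hf hne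
    have h1 : (⋃ A ∈ S, B \ A).Finite := hf.biUnion (fun A hA => hBA A hA)
    refine ((hG.1 B (hS hB)).diff h1).mono ?_
    rintro x ⟨hx, hx'⟩ A hA
    by_contra hxA
    exact hx' (mem_biUnion hA ⟨hx, hxA⟩)
  · rw [not_nonempty_iff_eq_empty] at hne
    subst hne
    simpa using Set.infinite_univ

theorem Refines.mem_filter {G F : Set (Set α)} (h : Refines G F) {V : Filter α}
    (hV : V ≤ cofinite) (hG : ∀ B ∈ G, B ∈ V) {A : Set α} (hA : A ∈ F) : A ∈ V := by
  obtain ⟨B, hB, hBA⟩ := h A hA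
  exact hBA.mem_filter hV (hG B hB)

/-! ### finite sets -/

/-- finite sets contained in `A` -/
def hat (A : Set α) : Set (Finset α) := {s | (s : Set α) ⊆ A}

/-- finite sets meeting `A` -/
def meet (A : Set α) : Set (Finset α) := {s | ∃ a ∈ s, a ∈ A}

/-- complements of singletons -/
def cs (α : Type) : Set (Set α) := range (fun a : α => ({a}ᶜ : Set α))

theorem mem_of_cs {V : Filter α} (h : ∀ A ∈ cs α, A ∈ V) : V ≤ cofinite := by
  rw [le_cofinite_iff_compl_singleton_mem]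
  intro a
  exact h _ ⟨a, rfl⟩

/-- the coding lemma: the family on finite sets is centered -/
theorem centered_hat_meet {P Q : Set (Set α)} (hP : cs α ⊆ P) (hP' : Centered P)
    (h : ∀ q ∈ Q, Centered (insert q P)) :
    Centered (hat '' P ∪ meet '' Q) := by
  intro S hS hf
  -- finitely many members of P
  have hP1 : ∃ P1 : Set (Set α), P1 ⊆ P ∧ P1.Finite ∧ S ∩ (hat '' P) ⊆ hat '' P1 := by
    have hfin : (S ∩ (hat '' P)).Finite := hf.subset inter_subset_left
    obtain ⟨P1, h1, h2, h3⟩ := (Set.exists_subset_image_finite_and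
      (p := fun t => t = S ∩ (hat '' P)) (s := P) (f := hat)).1
      ⟨S ∩ (hat '' P), inter_subset_right, hfin, rfl⟩
    exact ⟨P1, h1, h2, h3.ge⟩
  have hQ1 : ∃ Q1 : Set (Set α), Q1 ⊆ Q ∧ Q1.Finite ∧ S ∩ (meet '' Q) ⊆ meet '' Q1 := by
    have hfin : (S ∩ (meet '' Q)).Finite := hf.subset inter_subset_left
    obtain ⟨P1, h1, h2, h3⟩ := (Set.exists_subset_image_finite_and
      (p := fun t => t = S ∩ (meet '' Q)) (s := Q) (f := meet)).1
      ⟨S ∩ (meet '' Q), inter_subset_right, hfin, rfl⟩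
    exact ⟨P1, h1, h2, h3.ge⟩
  obtain ⟨P1, hP1, hP1f, hP1S⟩ := hP1
  obtain ⟨Q1, hQ1, hQ1f, hQ1S⟩ := hQ1
  -- for each q ∈ Q1 there is a point
  have hpt : ∀ q ∈ Q1, ∃ a, a ∈ q ∧ a ∈ ⋂₀ P1 := by
    intro q hq
    have := h q (hQ1 hq) (insert q P1) (insert_subset_insert hP1) (hP1f.insert _)
    obtain ⟨a, ha⟩ := this.nonempty
    exact ⟨a, ha q (mem_insert _ _), fun p hp => ha p (mem_insert_of_mem _ hp)⟩
  classical
  haveI : Nonempty α := by
    obtain ⟨a, -⟩ := (hP' ∅ (empty_subset _) finite_empty).nonempty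
    exact ⟨a⟩
  choose! pt hpt1 hpt2 using hpt
  let x0 : Finset α := (hQ1f.toFinset).image pt
  have hx0 : (x0 : Set α) ⊆ ⋂₀ P1 := by
    intro a ha
    simp only [x0, Finset.coe_image, mem_image, Finset.mem_coe, Set.Finite.mem_toFinset] at ha
    obtain ⟨q, hq, rfl⟩ := ha
    exact hpt2 q hq
  have hinf : ((⋂₀ P1) \ (x0 : Set α)).Infinite :=
    (hP' P1 hP1 hP1f).diff (Finset.finite_toSet _)
  have hinj : Set.InjOn (fun a => insert a x0) ((⋂₀ P1) \ (x0 : Set α)) := by
    intro a ha b hb hab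
    have : a ∈ insert b x0 := by
      have h1 : a ∈ insert a x0 := Finset.mem_insert_self _ _
      have h2 : insert a x0 = insert b x0 := hab
      rwa [h2] at h1
    rcases Finset.mem_insert.1 this with h | h
    · exact h
    · exact absurd h ha.2
  refine (hinf.image hinj).mono ?_
  rintro _ ⟨a, ⟨ha, ha'⟩, rfl⟩ A hA
  rcases hS hA with h1 | h1
  · obtain ⟨p, hp, rfl⟩ := hP1S ⟨hA, h1⟩
    intro b hb
    simp only [Finset.coe_insert, mem_insert_iff] at hb
    rcases hb with rfl | hb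
    · exact ha p hp
    · exact hx0 hb p hp
  · obtain ⟨q, hq, rfl⟩ := hQ1S ⟨hA, h1⟩
    refine ⟨pt q, ?_, hpt1 q hq⟩
    refine Finset.mem_insert_of_mem ?_
    simp only [x0, Finset.mem_image, Set.Finite.mem_toFinset]
    exact ⟨q, hq, rfl⟩

/-- union of a set of finite sets -/
def U (x : Set (Finset α)) : Set α := {a | ∃ s ∈ x, a ∈ s}

theorem U_asub {x y : Set (Finset α)} (h : ASub x y) : ASub (U x) (U y) := by
  have h1 : (⋃ s ∈ (x \ y), (s : Set α)).Finite := h.biUnion (fun s _ => Finset.finite_toSet s)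
  refine h1.subset ?_
  rintro a ⟨⟨s, hs, has⟩, hay⟩
  refine mem_biUnion (x := s) ⟨hs, fun hsy => hay ⟨s, hsy, has⟩⟩ has

theorem U_asub_hat {x : Set (Finset α)} {A : Set α} (h : ASub x (hat A)) : ASub (U x) A := by
  have h1 : (⋃ s ∈ (x \ hat A), (s : Set α)).Finite :=
    h.biUnion (fun s _ => Finset.finite_toSet s)
  refine h1.subset ?_
  rintro a ⟨⟨s, hs, has⟩, hay⟩
  refine mem_biUnion (x := s) ⟨hs, fun hsy => hay (hsy has)⟩ has

theorem U_infinite {x : Set (Finset α)} (h : x.Infinite) : (U x).Infinite := by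
  intro hfin
  refine h ?_
  refine (hfin.toFinset.powerset : Finset (Finset α)).finite_toSet.subset ?_
  intro s hs
  simp only [Finset.coe_powerset, mem_preimage, mem_powerset_iff, Set.Finite.coe_toFinset]
  intro a ha
  exact ⟨s, hs, ha⟩

/-- decoding lemma -/
theorem decode [Infinite α] {P Q : Set (Set α)} (hP : cs α ⊆ P) {X : Set (Set (Finset α))}
    (hX : Linear X) (hr : Refines X (hat '' P ∪ meet '' Q)) :
    Linear (U '' X) ∧ Refines (U '' X) P ∧ ∀ q ∈ Q, ∀ g ∈ U '' X, (g ∩ q).Infinite := by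
  refine ⟨⟨?_, ?_⟩, ?_, ?_⟩
  · rintro _ ⟨x, hx, rfl⟩
    exact U_infinite (hX.1 x hx)
  · rintro _ ⟨x, hx, rfl⟩ _ ⟨y, hy, rfl⟩
    rcases hX.2 x hx y hy with h | h
    · exact Or.inl (U_asub h)
    · exact Or.inr (U_asub h)
  · intro A hA
    obtain ⟨x, hx, hxA⟩ := hr (hat A) (Or.inl ⟨A, hA, rfl⟩)
    exact ⟨U x, ⟨x, hx, rfl⟩, U_asub_hat hxA⟩
  · rintro q hq _ ⟨x, hx, rfl⟩ hfin
    obtain ⟨V, hVn, hVc, hV⟩ := (hX.centered).exists_filter
    have h1 : x ∈ V := hV x hx
    have h2 : meet q ∈ V := hr.mem_filter hVc hV (Or.inr ⟨q, hq, rfl⟩)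
    have h3 : ∀ a ∈ (U x ∩ q), hat ({a}ᶜ : Set α) ∈ V := fun a _ =>
      hr.mem_filter hVc hV (Or.inl ⟨_, hP ⟨a, rfl⟩, rfl⟩)
    have h4 : (⋂ a ∈ (U x ∩ q), hat ({a}ᶜ : Set α)) ∈ V := (biInter_mem hfin).2 h3
    obtain ⟨s, hs⟩ := (inter_mem (inter_mem h1 h2) h4 |> hVn.nonempty_of_mem)
    obtain ⟨⟨hs1, a, has, haq⟩, hs3⟩ := hs
    have h5 : a ∈ U x ∩ q := ⟨⟨s, hs1, has⟩, haq⟩
    have h6 := mem_iInter₂.1 hs3 a h5
    exact h6 has rfl

end Pool.Agent.H83.LR
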