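import Mathlib
import Pool.Agent.H83.LR1

/-! Regularity of the linear refinement number: main argument. -/

namespace Pool.Agent.H83.LR

open Set Filter Cardinal

variable {α β : Type}

/-- every centered family of size `< l` of subsets of `α` has a linear refinement of size `≤ m` -/
def UProp (α : Type) (l m : Cardinal.{0}) : Prop :=
  ∀ F : Set (Set α), Centered F → #F < l → ∃ G, Linear G ∧ Refines G F ∧ #G ≤ m

theorem ASub.image_equiv (e : α ≃ β) {A B : Set α} : ASub (e '' A) (e '' B) ↔ ASub A B := by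
  constructor
  · intro h
    have := h.image e.symm
    simpa using this
  · exact fun h => h.image e

theorem Linear.image_equiv (e : α ≃ β) {G : Set (Set α)} (h : Linear G) :
    Linear ((fun A => e '' A) '' G) := by
  refine ⟨?_, ?_⟩
  · rintro _ ⟨A, hA, rfl⟩
    exact (h.1 A hA).image e.injective.injOn
  · rintro _ ⟨A, hA, rfl⟩ _ ⟨B, hB, rfl⟩
    rcases h.2 A hA B hB with h1 | h1
    · exact Or.inl (h1.image e)
    · exact Or.inr (h1.image e)

theorem Centered.image_equiv (e : α ≃ β) {F : Set (Set α)} (h : Centered F) :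
    Centered ((fun A => e '' A) '' F) := by
  obtain ⟨V, hVn, hVc, hV⟩ := h.exists_filter
  haveI : (V.map e).NeBot := hVn.map _
  refine centered_of_filter (V.map e) ?_ ?_
  · calc V.map e ≤ cofinite.map e := Filter.map_mono hVc
      _ ≤ cofinite := e.injective.tendsto_cofinite
  · rintro _ ⟨A, hA, rfl⟩
    exact image_mem_map (hV A hA)

theorem Refines.image_equiv (e : α ≃ β) {F : Set (Set α)} {G : Set (Set β)}
    (h : Refines G ((fun A => e '' A) '' F)) :
    Refines ((fun A => e.symm '' A) '' G) F := by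
  intro A hA
  obtain ⟨B, hB, hBA⟩ := h _ ⟨A, hA, rfl⟩
  refine ⟨_, ⟨B, hB, rfl⟩, ?_⟩
  have := hBA.image e.symm
  simpa using this

theorem UProp.transport (e : α ≃ β) {l m : Cardinal.{0}} (h : UProp β l m) : UProp α l m := by
  intro F hF hl
  obtain ⟨G, hG, hr, hm⟩ := h ((fun A => e '' A) '' F) (hF.image_equiv e) (mk_image_le.trans_lt hl)
  exact ⟨(fun A => e.symm '' A) '' G, hG.image_equiv e.symm, Refines.image_equiv e hr,
    mk_image_le.trans hm⟩

theorem UProp.nat [Denumerable α] {l m : Cardinal.{0}} (h : UProp ℕ l m) : UProp α l m :=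
  h.transport (Denumerable.eqv α)

/-- `HasLinRef` for a fixed bound on the size of the family only -/
def LProp (α : Type) (l : Cardinal.{0}) : Prop :=
  ∀ F : Set (Set α), Centered F → #F < l → ∃ G, Linear G ∧ Refines G F

theorem LProp.transport (e : α ≃ β) {l : Cardinal.{0}} (h : LProp β l) : LProp α l := by
  intro F hF hl
  obtain ⟨G, hG, hr⟩ := h ((fun A => e '' A) '' F) (hF.image_equiv e) (mk_image_le.trans_lt hl)
  exact ⟨(fun A => e.symm '' A) '' G, hG.image_equiv e.symm, Refines.image_equiv e hr⟩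

theorem LProp.nat [Denumerable α] {l : Cardinal.{0}} (h : LProp ℕ l) : LProp α l :=
  h.transport (Denumerable.eqv α)

/-- the product lemma: uniform bound on the size of linear refinements -/
theorem exists_uprop {l : Cardinal.{0}} (hl : ℵ₀ < l) (h : LProp ℕ l) :
    ∃ m < l, UProp ℕ l m := by
  classical
  by_cases hpi : ∀ F : Set (Set ℕ), Centered F → #F < l → ∃ B : Set ℕ, B.Infinite ∧ ∀ A ∈ F, ASub B A
  · refine ⟨1, one_lt_aleph0.trans hl, ?_⟩
    intro F hF hFl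
    obtain ⟨B, hB, hBA⟩ := hpi F hF hFl
    refine ⟨{B}, ⟨?_, ?_⟩, ?_, by simp⟩
    · rintro _ rfl; exact hB
    · rintro _ rfl _ rfl; exact Or.inl (ASub.refl _)
    · intro A hA
      exact ⟨B, rfl, hBA A hA⟩
  · push Not at hpi
    obtain ⟨E, hE, hEl, hEpi⟩ := hpi
    have hinfE : ¬ ∃ B : Set ℕ, B.Infinite ∧ ∀ A ∈ E, ASub B A := by
      rintro ⟨B, hB, hBA⟩
      obtain ⟨A, hA, hn⟩ := hEpi B hB
      exact hn (hBA A hA)
    refine ⟨#E, hEl, ?_⟩
    intro F hF hFl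
    -- product family
    let K : Set (Set (ℕ × ℕ)) :=
      ((fun A => Prod.fst ⁻¹' A) '' (F ∪ cs ℕ)) ∪ ((fun A => Prod.snd ⁻¹' A) '' (E ∪ cs ℕ))
    have hcs : #(cs ℕ) ≤ ℵ₀ := mk_range_le.trans (by simp)
    have hKl : #K < l := by
      refine (mk_union_le _ _).trans_lt (add_lt_of_lt hl.le ?_ ?_)
      · refine mk_image_le.trans_lt ((mk_union_le _ _).trans_lt (add_lt_of_lt hl.le hFl ?_))
        exact hcs.trans_lt hl
      · refine mk_image_le.trans_lt ((mk_union_le _ _).trans_lt (add_lt_of_lt hl.le hEl ?_))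
        exact hcs.trans_lt hl
    have hKc : Centered K := by
      obtain ⟨V1, hV1n, hV1c, hV1⟩ := hF.exists_filter
      obtain ⟨V2, hV2n, hV2c, hV2⟩ := hE.exists_filter
      have hsing : ∀ {V : Filter ℕ}, V ≤ cofinite → ∀ A ∈ cs ℕ, A ∈ V := by
        rintro V hV _ ⟨a, rfl⟩
        exact le_cofinite_iff_compl_singleton_mem.1 hV a
      refine centered_of_filter (V1 ×ˢ V2) ?_ ?_
      · rw [le_cofinite_iff_compl_singleton_mem]
        rintro ⟨a, b⟩
        have h1 : Prod.fst ⁻¹' ({a}ᶜ : Set ℕ) ∈ V1 ×ˢ V2 :=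
          tendsto_fst (hsing hV1c _ ⟨a, rfl⟩)
        filter_upwards [h1] with x hx hx'
        apply hx
        have : x = (a, b) := hx'
        rw [this]; rfl
      · rintro A (⟨B, hB, rfl⟩ | ⟨B, hB, rfl⟩)
        · refine tendsto_fst (?_ : B ∈ V1)
          rcases hB with hB | hB
          · exact hV1 B hB
          · exact hsing hV1c B hB
        · refine tendsto_snd (?_ : B ∈ V2)
          rcases hB with hB | hB
          · exact hV2 B hB
          · exact hsing hV2c B hB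
    obtain ⟨G, hG, hGK⟩ := (h.nat (α := ℕ × ℕ)) K hKc hKl
    obtain ⟨V, hVn, hVc, hV⟩ := hG.centered.exists_filter
    have hKV : ∀ A ∈ K, A ∈ V := fun A hA => hGK.mem_filter hVc hV hA
    have hinf1 : ∀ B ∈ G, (Prod.fst '' B).Infinite := by
      intro B hB hfin
      have h1 : (⋂ a ∈ Prod.fst '' B, (Prod.fst ⁻¹' ({a}ᶜ : Set ℕ) : Set (ℕ × ℕ))) ∈ V :=
        (biInter_mem hfin).2 (fun a _ => hKV _ (Or.inl ⟨_, Or.inr ⟨a, rfl⟩, rfl⟩))
      obtain ⟨x, hx, hx'⟩ := hVn.nonempty_of_mem (inter_mem (hV B hB) h1)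
      exact mem_iInter₂.1 hx' x.1 ⟨x, hx, rfl⟩ rfl
    have hinf2 : ∀ B ∈ G, (Prod.snd '' B).Infinite := by
      intro B hB hfin
      have h1 : (⋂ a ∈ Prod.snd '' B, (Prod.snd ⁻¹' ({a}ᶜ : Set ℕ) : Set (ℕ × ℕ))) ∈ V :=
        (biInter_mem hfin).2 (fun a _ => hKV _ (Or.inr ⟨_, Or.inr ⟨a, rfl⟩, rfl⟩))
      obtain ⟨x, hx, hx'⟩ := hVn.nonempty_of_mem (inter_mem (hV B hB) h1)
      exact mem_iInter₂.1 hx' x.2 ⟨x, hx, rfl⟩ rfl
    -- choose witnesses for E
    have hw : ∀ A : E, ∃ B ∈ G, ASub B (Prod.snd ⁻¹' (A : Set ℕ)) := fun A =>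
      hGK _ (Or.inr ⟨A, Or.inl A.2, rfl⟩)
    choose w hwG hwA using hw
    have hcoin : ∀ B ∈ G, ∃ A : E, ASub (w A) B := by
      intro B hB
      by_contra hno
      push Not at hno
      refine hinfE ⟨Prod.snd '' B, hinf2 B hB, ?_⟩
      intro A hA
      have h1 : ASub B (w ⟨A, hA⟩) := by
        rcases hG.2 B hB _ (hwG ⟨A, hA⟩) with h2 | h2
        · exact h2
        · exact absurd h2 (hno ⟨A, hA⟩)
      have h2 := (h1.trans (hwA ⟨A, hA⟩)).image (Prod.snd)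
      refine h2.trans (ASub.of_subset ?_)
      rintro _ ⟨x, hx, rfl⟩
      exact hx
    refine ⟨range (fun A : E => Prod.fst '' (w A)), ⟨?_, ?_⟩, ?_, mk_range_le⟩
    · rintro _ ⟨A, rfl⟩
      exact hinf1 _ (hwG A)
    · rintro _ ⟨A, rfl⟩ _ ⟨A', rfl⟩
      rcases hG.2 _ (hwG A) _ (hwG A') with h1 | h1
      · exact Or.inl (h1.image _)
      · exact Or.inr (h1.image _)
    · intro A hA
      obtain ⟨B, hB, hBA⟩ := hGK (Prod.fst ⁻¹' A) (Or.inl ⟨A, Or.inl hA, rfl⟩)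
      obtain ⟨A', hA'⟩ := hcoin B hB
      refine ⟨_, ⟨A', rfl⟩, ?_⟩
      refine ((hA'.trans hBA).image Prod.fst).trans (ASub.of_subset ?_)
      rintro _ ⟨x, hx, rfl⟩
      exact hx


theorem Linear.exists_common {G : Set (Set α)} (hG : Linear G) (hne : G.Nonempty)
    (T : Set (Set α)) (hT : T.Finite) (h : ∀ A ∈ T, ∃ B ∈ G, ASub B A) :
    ∃ B ∈ G, ASub B (⋂₀ T) := by
  induction T, hT using Set.Finite.induction_on with
  | empty =>
    obtain ⟨B, hB⟩ := hne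
    exact ⟨B, hB, by simp [ASub]⟩
  | @insert a s has hs ih =>
    obtain ⟨B, hB, hBs⟩ := ih (fun A hA => h A (mem_insert_of_mem _ hA))
    obtain ⟨C, hC, hCa⟩ := h a (mem_insert _ _)
    have key : ∀ D : Set α, ASub D a → ASub D (⋂₀ s) → ASub D (⋂₀ insert a s) := by
      intro D h1 h2
      refine (h1.union h2).subset ?_
      rintro x ⟨hx, hx'⟩
      by_cases hxa : x ∈ a
      · right
        refine ⟨hx, fun hxs => hx' ?_⟩
        rw [sInter_insert]
        exact ⟨hxa, hxs⟩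
      · exact Or.inl ⟨hx, hxa⟩
    rcases hG.2 B hB C hC with h1 | h1
    · exact ⟨B, hB, key B (h1.trans hCa) hBs⟩
    · exact ⟨C, hC, key C hCa (h1.trans hBs)⟩

/-- closure under finite intersections -/
def ic (F : Set (Set α)) : Set (Set α) := {A | ∃ S ⊆ F, S.Finite ∧ A = ⋂₀ S}

theorem subset_ic (F : Set (Set α)) : F ⊆ ic F := fun A hA =>
  ⟨{A}, by simpa using hA, finite_singleton _, by simp⟩

theorem ic_mem_filter {F : Set (Set α)} {V : Filter α} (h : ∀ A ∈ F, A ∈ V) :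
    ∀ A ∈ ic F, A ∈ V := by
  rintro _ ⟨S, hS, hf, rfl⟩
  exact (sInter_mem hf).2 (fun A hA => h A (hS hA))

theorem mk_ic_le {F : Set (Set ℕ)} {l : Cardinal.{0}} (hl : ℵ₀ ≤ l) (hF : #F ≤ l) : #(ic F) ≤ l := by
  classical
  have h1 : ic F ⊆ range (fun s : Finset F => ⋂₀ (Subtype.val '' (s : Set F))) := by
    rintro _ ⟨S, hS, hf, rfl⟩
    have hf' : (Subtype.val ⁻¹' S : Set F).Finite := hf.preimage Subtype.val_injective.injOn
    refine ⟨hf'.toFinset, ?_⟩
    simp only [Set.Finite.coe_toFinset]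
    rw [Subtype.image_preimage_coe, inter_eq_right.2 hS]
  refine (mk_le_mk_of_subset h1).trans (mk_range_le.trans ?_)
  rcases finite_or_infinite F with hfin | hinf
  · exact (lt_aleph0_of_finite _).le.trans hl
  · rw [mk_finset_of_infinite]; exact hF

/-- decomposition into `cof l` many small pieces -/
theorem decomp {l : Cardinal.{0}} (hl : ℵ₀ ≤ l) (F : Set (Set ℕ)) (hF : #F ≤ l) :
    ∃ (I : Type) (Fs : I → Set (Set ℕ)), #I = l.ord.cof ∧ (∀ i, #(Fs i) < l) ∧ F ⊆ ⋃ i, Fs i := by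
  have h1 : #F ≤ #l.ord.ToType := by rwa [mk_ord_toType]
  obtain ⟨f⟩ := h1
  obtain ⟨s, hs, hs'⟩ := Order.exists_cof_eq l.ord.ToType
  rw [Ordinal.cof_toType] at hs'
  refine ⟨s, fun i => {A | ∃ h : A ∈ F, f ⟨A, h⟩ ≤ i}, hs', ?_, ?_⟩
  · rintro i
    have h2 : #(Iic (i : l.ord.ToType)) < l := by
      have := mk_Iic_lt (i : l.ord.ToType) (by simp) (by simpa using hl)
      simpa using this
    refine lt_of_le_of_lt ?_ h2
    refine mk_le_of_injective (f := fun A => ⟨f ⟨A.1, A.2.choose⟩, A.2.choose_spec⟩) ?_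
    intro A B hAB
    have h3 : f ⟨A.1, A.2.choose⟩ = f ⟨B.1, B.2.choose⟩ := congrArg Subtype.val hAB
    have h4 := f.injective h3
    have h5 : A.1 = B.1 := congrArg (fun z : F => z.1) h4
    exact Subtype.ext h5
  · intro A hA
    obtain ⟨i, hi, hi'⟩ := hs (f ⟨A, hA⟩)
    exact mem_iUnion.2 ⟨⟨i, hi⟩, hA, hi'⟩

/-- main lemma -/
theorem main_step {l m : Cardinal.{0}} (hl : ℵ₀ < l) (hm : m < l) (hcof : l.ord.cof < l)
    (hU : UProp ℕ l m) (F : Set (Set ℕ)) (hF : #F ≤ l) (hc : Centered F)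
    (F0 : Set (Set ℕ)) (hF0 : F0 ⊆ F) (hF0l : #F0 < l) :
    ∃ G, Linear G ∧ Refines G F0 ∧ #G ≤ m ∧ Centered (F ∪ G) := by
  classical
  obtain ⟨W, hWn, hWc, hW⟩ := hc.exists_filter
  obtain ⟨I, Fs, hI, hFs, hFU⟩ := decomp hl.le (ic F) (mk_ic_le hl.le hF)
  have hIl : #I < l := hI ▸ hcof
  have hcs : #(cs ℕ) ≤ ℵ₀ := mk_range_le.trans (by simp)
  have hcs2 : #(cs (Finset ℕ)) ≤ ℵ₀ := mk_range_le.trans (by simp)
  let P : Set (Set ℕ) := F0 ∪ cs ℕ
  have hPW : ∀ A ∈ P, A ∈ W := by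
    rintro A (hA | ⟨a, rfl⟩)
    · exact hW A (hF0 hA)
    · exact le_cofinite_iff_compl_singleton_mem.1 hWc a
  have hPl : #P < l := (mk_union_le _ _).trans_lt (add_lt_of_lt hl.le hF0l (hcs.trans_lt hl))
  have hPc : Centered P := centered_of_filter W hWc hPW
  -- first level
  have hG1 : ∀ i, ∃ G, Linear G ∧ Refines G (hat '' P ∪ meet '' (Fs i ∩ ic F)) ∧ #G ≤ m := by
    intro i
    refine (hU.nat (α := Finset ℕ)) _ (centered_hat_meet subset_union_right hPc ?_) ?_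
    · intro q hq
      refine centered_of_filter W hWc ?_
      rintro A (rfl | hA)
      · exact ic_mem_filter hW _ hq.2
      · exact hPW A hA
    · refine (mk_union_le _ _).trans_lt (add_lt_of_lt hl.le (mk_image_le.trans_lt hPl) ?_)
      exact mk_image_le.trans_lt ((mk_le_mk_of_subset inter_subset_left).trans_lt (hFs i))
  choose G1 hG1l hG1r hG1m using hG1
  let P2 : Set (Set (Finset ℕ)) := hat '' P ∪ cs (Finset ℕ)
  let Q2 : Set (Set (Finset ℕ)) := ⋃ i, G1 i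
  have hP2l : #P2 < l := (mk_union_le _ _).trans_lt
    (add_lt_of_lt hl.le (mk_image_le.trans_lt hPl) (hcs2.trans_lt hl))
  have hQ2l : #Q2 < l := by
    refine (mk_iUnion_le_sum_mk.trans ((Cardinal.sum_le_sum _ (fun _ => m) hG1m))).trans_lt ?_
    rw [Cardinal.sum_const']
    exact mul_lt_of_lt hl.le hIl hm
  have hVall : ∀ i, ∀ g ∈ G1 i, ∃ V : Filter (Finset ℕ), V.NeBot ∧ V ≤ cofinite ∧ g ∈ V ∧
      ∀ A ∈ P2, A ∈ V := by
    intro i g hg
    obtain ⟨V, hVn, hVc, hV⟩ := (hG1l i).centered.exists_filter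
    refine ⟨V, hVn, hVc, hV g hg, ?_⟩
    rintro A (hA | ⟨a, rfl⟩)
    · exact (hG1r i).mem_filter hVc hV (Or.inl hA)
    · exact le_cofinite_iff_compl_singleton_mem.1 hVc a
  have hP2c : Centered P2 := by
    have h1 : Centered (hat '' P ∪ meet '' (∅ : Set (Set ℕ))) :=
      centered_hat_meet subset_union_right hPc (fun q hq => absurd hq (notMem_empty q))
    obtain ⟨V, hVn, hVc, hV⟩ := h1.exists_filter
    refine centered_of_filter V hVc ?_
    rintro A (hA | ⟨a, rfl⟩)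
    · exact hV A (Or.inl hA)
    · exact le_cofinite_iff_compl_singleton_mem.1 hVc a
  -- second level
  obtain ⟨X, hX, hXr, hXm⟩ := (hU.nat (α := Finset (Finset ℕ))) (hat '' P2 ∪ meet '' Q2)
    (centered_hat_meet subset_union_right hP2c (by
      intro q hq
      obtain ⟨i, hi⟩ := mem_iUnion.1 hq
      obtain ⟨V, hVn, hVc, hgV, hV⟩ := hVall i q hi
      refine centered_of_filter V hVc ?_
      rintro A (rfl | hA)
      · exact hgV
      · exact hV A hA))
    ((mk_union_le _ _).trans_lt (add_lt_of_lt hl.le (mk_image_le.trans_lt hP2l)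
      (mk_image_le.trans_lt hQ2l)))
  obtain ⟨hG2l, hG2r, hG2i⟩ := decode (P := P2) (Q := Q2) subset_union_right hX hXr
  have hG2ne : (U '' X).Nonempty := by
    obtain ⟨g, hg, -⟩ := hG2r _ (Or.inr ⟨∅, rfl⟩)
    exact ⟨g, hg⟩
  -- decode to `ℕ`
  have hGl : Linear (U '' (U '' X)) := by
    refine ⟨?_, ?_⟩
    · rintro _ ⟨x, hx, rfl⟩
      exact U_infinite (hG2l.1 x hx)
    · rintro _ ⟨x, hx, rfl⟩ _ ⟨y, hy, rfl⟩
      rcases hG2l.2 x hx y hy with h | h
      · exact Or.inl (U_asub h)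
      · exact Or.inr (U_asub h)
  have hGi : ∀ g ∈ U '' (U '' X), ∀ q ∈ ic F, (g ∩ q).Infinite := by
    rintro _ ⟨y, hy, rfl⟩ q hq hfin
    obtain ⟨i, hi⟩ := mem_iUnion.1 (hFU hq)
    obtain ⟨b, hb, hbq⟩ := hG1r i (meet q) (Or.inr ⟨q, ⟨hi, hq⟩, rfl⟩)
    obtain ⟨y', hy', hyy⟩ := hG2l.exists_common hG2ne
      (insert y ((fun a => hat ({a}ᶜ : Set ℕ)) '' (U y ∩ q))) ((hfin.image _).insert _) (by
        rintro A (rfl | ⟨a, ha, rfl⟩)
        · exact ⟨A, hy, ASub.refl _⟩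
        · exact hG2r _ (Or.inl ⟨_, Or.inr ⟨a, rfl⟩, rfl⟩))
    have h1 : (y' ∩ b).Infinite := hG2i b (mem_iUnion.2 ⟨i, hb⟩) y' hy'
    obtain ⟨s, ⟨hs1, hs2⟩, hs3⟩ := (h1.diff (hyy.union hbq)).nonempty
    have hs4 : s ∈ meet q := by
      by_contra hn
      exact hs3 (Or.inr ⟨hs2, hn⟩)
    have hs5 : s ∈ ⋂₀ (insert y ((fun a => hat ({a}ᶜ : Set ℕ)) '' (U y ∩ q))) := by
      by_contra hn
      exact hs3 (Or.inl ⟨hs1, hn⟩)
    obtain ⟨a, has, haq⟩ := hs4
    have hsy : s ∈ y := hs5 y (mem_insert _ _)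
    have h6 : s ∈ hat ({a}ᶜ : Set ℕ) :=
      hs5 _ (mem_insert_of_mem _ ⟨a, ⟨⟨s, hsy, has⟩, haq⟩, rfl⟩)
    exact h6 has rfl
  refine ⟨U '' (U '' X), hGl, ?_, mk_image_le.trans (mk_image_le.trans hXm), ?_⟩
  · intro A hA
    obtain ⟨y, hy, hyA⟩ := hG2r (hat A) (Or.inl ⟨A, Or.inl hA, rfl⟩)
    exact ⟨U y, ⟨y, hy, rfl⟩, U_asub_hat hyA⟩
  · intro S hS hf
    have h1 : (⋂₀ (S ∩ F)) ∈ ic F := ⟨S ∩ F, inter_subset_right, hf.subset inter_subset_left, rfl⟩
    by_cases hne : (S \ F).Nonempty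
    · have hsub : S \ F ⊆ U '' (U '' X) := by
        rintro A ⟨hA, hA'⟩
        rcases hS hA with h | h
        · exact absurd h hA'
        · exact h
      obtain ⟨B, hB, hBA⟩ := hGl.exists_min (S \ F) hsub (hf.subset sdiff_subset) hne
      have h2 : (⋃ A ∈ S \ F, B \ A).Finite :=
        (hf.subset sdiff_subset).biUnion (fun A hA => hBA A hA)
      refine ((hGi B (hsub hB) _ h1).diff h2).mono ?_
      rintro x ⟨⟨hx, hxq⟩, hx'⟩ A hA
      by_cases hAF : A ∈ F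
      · exact hxq A ⟨hA, hAF⟩
      · by_contra hxA
        exact hx' (mem_biUnion (x := A) ⟨hA, hAF⟩ ⟨hx, hxA⟩)
    · have h2 : S ⊆ F := by
        intro A hA
        by_contra hAF
        exact hne ⟨A, hA, hAF⟩
      exact hc S h2 hf

end Pool.Agent.H83.LR
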