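import Mathlib
import Pool.Agent.H83.LR2

/-! Regularity of the linear refinement number: the iteration. -/

namespace Pool.Agent.H83.LR

open Set Filter Cardinal

theorem centered_iUnion_lower {I : Type} [LinearOrder I] (F : Set (Set ℕ))
    (Gs : I → Set (Set ℕ)) (D : Set I) (hF : Centered F)
    (h : ∀ i ∈ D, Centered ((F ∪ ⋃ j, ⋃ _ : j < i, Gs j) ∪ Gs i)) :
    Centered (F ∪ ⋃ i ∈ D, Gs i) := by
  intro S hS hf
  have key : S ⊆ F ∨ ∃ i ∈ D, S ⊆ ((F ∪ ⋃ j, ⋃ _ : j < i, Gs j) ∪ Gs i) := by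
    clear h hF
    induction S, hf using Set.Finite.induction_on with
    | empty => exact Or.inl (empty_subset _)
    | @insert a s has hs ih =>
      have ih' := ih ((subset_insert _ _).trans hS)
      have ha := hS (mem_insert a s)
      rcases ha with ha | ha
      · rcases ih' with h1 | ⟨i, hi, h1⟩
        · exact Or.inl (insert_subset ha h1)
        · exact Or.inr ⟨i, hi, insert_subset (Or.inl (Or.inl ha)) h1⟩
      · simp only [mem_iUnion] at ha
        obtain ⟨j, hj, ha⟩ := ha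
        right
        rcases ih' with h1 | ⟨i, hi, h1⟩
        · exact ⟨j, hj, insert_subset (Or.inr ha) (h1.trans (fun x hx => Or.inl (Or.inl hx)))⟩
        · rcases lt_trichotomy i j with hij | rfl | hij
          · refine ⟨j, hj, insert_subset (Or.inr ha) (h1.trans ?_)⟩
            rintro x ((hx | hx) | hx)
            · exact Or.inl (Or.inl hx)
            · simp only [mem_iUnion] at hx
              obtain ⟨k, hk, hx⟩ := hx
              exact Or.inl (Or.inr (mem_iUnion₂.2 ⟨k, hk.trans hij, hx⟩))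
            · exact Or.inl (Or.inr (mem_iUnion₂.2 ⟨i, hij, hx⟩))
          · exact ⟨i, hi, insert_subset (Or.inr ha) h1⟩
          · refine ⟨i, hi, insert_subset (Or.inl (Or.inr (mem_iUnion₂.2 ⟨j, hij, ha⟩))) h1⟩
  rcases key with h1 | ⟨i, hi, h1⟩
  · exact hF S h1 hf
  · exact h i hi S h1 hf

theorem final {l : Cardinal.{0}} (hl : ℵ₀ < l) (hcof : l.ord.cof < l) (h : LProp ℕ l)
    (F : Set (Set ℕ)) (hc : Centered F) (hF : #F ≤ l) : ∃ G, Linear G ∧ Refines G F := by
  classical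
  obtain ⟨m, hm, hU⟩ := exists_uprop hl h
  obtain ⟨I, Fs, hI, hFs, hFU⟩ := decomp hl.le F hF
  obtain ⟨_, _⟩ := exists_wellFoundedLT (α := I)
  have hIl : #I < l := hI ▸ hcof
  let Good : I → Set (Set ℕ) → Set (Set ℕ) → Prop := fun i T G =>
    Linear G ∧ Refines G (Fs i ∩ F) ∧ #G ≤ m ∧ Centered ((F ∪ T) ∪ G)
  let Gs : I → Set (Set ℕ) := WellFounded.fix (wellFounded_lt (α := I)) (fun i g =>
    if h : ∃ G, Good i (⋃ j, ⋃ hj : j < i, g j hj) G then h.choose else ∅)
  have hGs : ∀ i, Gs i = if h : ∃ G, Good i (⋃ j, ⋃ _ : j < i, Gs j) G then h.choose else ∅ := by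
    intro i
    exact WellFounded.fix_eq _ _ i
  have hGm : ∀ i, #(Gs i) ≤ m := by
    intro i
    rw [hGs]
    split_ifs with h1
    · exact h1.choose_spec.2.2.1
    · simp
  have hUl : ∀ D : Set I, #(⋃ i ∈ D, Gs i : Set (Set ℕ)) < l := by
    intro D
    have h1 : (⋃ i ∈ D, Gs i) ⊆ ⋃ i, Gs i := iUnion₂_subset_iUnion _ _
    refine (mk_le_mk_of_subset h1).trans_lt ?_
    refine (mk_iUnion_le_sum_mk.trans ((Cardinal.sum_le_sum _ (fun _ => m) hGm))).trans_lt ?_
    rw [Cardinal.sum_const']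
    exact mul_lt_of_lt hl.le hIl hm
  have hmain : ∀ i, Good i (⋃ j, ⋃ _ : j < i, Gs j) (Gs i) := by
    intro i
    induction i using WellFoundedLT.induction with
    | ind i ih =>
      have hci : Centered (F ∪ ⋃ j ∈ {j | j < i}, Gs j) :=
        centered_iUnion_lower F Gs {j | j < i} hc (fun j hj => (ih j hj).2.2.2)
      have hex : ∃ G, Good i (⋃ j, ⋃ _ : j < i, Gs j) G := by
        obtain ⟨G, h1, h2, h3, h4⟩ := main_step hl hm hcof hU (F ∪ ⋃ j ∈ {j | j < i}, Gs j)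
          ((mk_union_le _ _).trans (add_le_of_le hl.le hF (hUl _).le)) hci (Fs i ∩ F)
          (fun x hx => Or.inl hx.2) ((mk_le_mk_of_subset inter_subset_left).trans_lt (hFs i))
        exact ⟨G, h1, h2, h3, h4⟩
      have := hex.choose_spec
      rw [hGs i, dif_pos hex]
      exact this
  have hcU : Centered (F ∪ ⋃ i ∈ (univ : Set I), Gs i) :=
    centered_iUnion_lower F Gs univ hc (fun i _ => (hmain i).2.2.2)
  obtain ⟨H, hH, hHr⟩ := h (⋃ i ∈ (univ : Set I), Gs i) (hcU.mono subset_union_right) (hUl univ)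
  refine ⟨H, hH, hHr.trans ?_⟩
  intro A hA
  obtain ⟨i, hi⟩ := mem_iUnion.1 (hFU hA)
  obtain ⟨B, hB, hBA⟩ := (hmain i).2.1 A ⟨hi, hA⟩
  exact ⟨B, mem_iUnion₂.2 ⟨i, mem_univ _, hB⟩, hBA⟩

/-- there is a centered family with no linear refinement -/
theorem exists_bad : ∃ F : Set (Set ℕ), Centered F ∧ ¬ ∃ G, Linear G ∧ Refines G F := by
  by_contra hno
  push Not at hno
  -- transport to `ℕ × ℕ`
  have h : LProp ℕ (Order.succ (#(Set (Set ℕ)))) := by
    intro F hF _
    exact hno F hF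
  have h2 : ∀ F : Set (Set (ℕ × ℕ)), Centered F → ∃ G, Linear G ∧ Refines G F := by
    intro F hF
    refine (h.nat (α := ℕ × ℕ)) F hF ?_
    rw [Order.lt_succ_iff]
    refine (mk_set_le F).trans ?_
    have : #(Set (ℕ × ℕ)) = #(Set ℕ) := by
      rw [mk_set, mk_set, mk_congr (Denumerable.eqv (ℕ × ℕ))]
    rw [this, mk_set (α := Set ℕ)]
    exact (cantor _).le
  let Ck : ℕ → Set (ℕ × ℕ) := fun k => {p | k ≤ p.1}
  let Af : (ℕ → ℕ) → Set (ℕ × ℕ) := fun f => {p | f p.1 ≤ p.2}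
  have hcent : Centered (range Ck ∪ range Af) := by
    have hV : (∀ S : Set (Set (ℕ × ℕ)), S ⊆ (range Ck ∪ range Af) → S.Finite →
      ∃ (k : ℕ) (f : ℕ → ℕ), Ck k ∩ Af f ⊆ ⋂₀ S) := by
      intro S hS hf
      induction S, hf using Set.Finite.induction_on with
      | empty => exact ⟨0, 0, by simp⟩
      | @insert a s has hs ih =>
        obtain ⟨k, f, hkf⟩ := ih ((subset_insert _ _).trans hS)
        rcases hS (mem_insert _ _) with ⟨k', rfl⟩ | ⟨f', rfl⟩
        · refine ⟨max k k', f, ?_⟩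
          rintro p ⟨hp, hp'⟩
          rw [sInter_insert]
          have hp1 : max k k' ≤ p.1 := hp
          exact ⟨le_trans (le_max_right _ _) hp1, hkf ⟨show k ≤ p.1 by omega, hp'⟩⟩
        · refine ⟨k, fun n => max (f n) (f' n), ?_⟩
          rintro p ⟨hp, hp'⟩
          rw [sInter_insert]
          have hp1 : max (f p.1) (f' p.1) ≤ p.2 := hp'
          exact ⟨le_trans (le_max_right _ _) hp1, hkf ⟨hp, show f p.1 ≤ p.2 by omega⟩⟩
    intro S hS hf
    obtain ⟨k, f, hkf⟩ := hV S hS hf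
    refine Set.Infinite.mono hkf ?_
    refine Set.infinite_of_injective_forall_mem (f := fun n : ℕ => ((k : ℕ), f k + n)) ?_ ?_
    · intro a b hab
      simpa using hab
    · intro n
      exact ⟨le_refl k, Nat.le_add_right _ _⟩
  obtain ⟨G, hG, hGr⟩ := h2 _ hcent
  obtain ⟨V, hVn, hVc, hV⟩ := hG.centered.exists_filter
  have hVC : ∀ k, Ck k ∈ V := fun k => hGr.mem_filter hVc hV (Or.inl ⟨k, rfl⟩)
  have hVA : ∀ f, Af f ∈ V := fun f => hGr.mem_filter hVc hV (Or.inr ⟨f, rfl⟩)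
  by_cases hcase : ∃ B ∈ G, ∀ k, ASub B (Ck k)
  · obtain ⟨B, hB, hBk⟩ := hcase
    have hcol : ∀ n, ∃ N, ∀ m, (n, m) ∈ B → m < N := by
      intro n
      have h1 : (Prod.snd '' (B \ Ck (n + 1))).Finite := Set.Finite.image _ (hBk (n + 1))
      obtain ⟨N, hN⟩ := h1.bddAbove
      refine ⟨N + 1, fun m hm => Nat.lt_succ_of_le (hN ⟨(n, m), ⟨hm, ?_⟩, rfl⟩)⟩
      show ¬ (n + 1 ≤ n)
      omega
    choose f hf using hcol
    obtain ⟨⟨n, m⟩, hx, hx'⟩ := hVn.nonempty_of_mem (inter_mem (hV B hB) (hVA f))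
    have h1 : m < f n := hf n m hx
    have h2 : f n ≤ m := hx'
    omega
  · push Not at hcase
    have hBk : ∀ k, ∃ B ∈ G, ASub B (Ck k) := fun k => hGr _ (Or.inl ⟨k, rfl⟩)
    choose B hBG hBC using hBk
    have hcoin : ∀ C ∈ G, ∃ k, ASub (B k) C := by
      intro C hC
      obtain ⟨k, hk⟩ := hcase C hC
      refine ⟨k, ?_⟩
      rcases hG.2 C hC (B k) (hBG k) with h1 | h1
      · exact absurd (h1.trans (hBC k)) hk
      · exact h1
    have hpt : ∀ j : ℕ, ∃ p : ℕ × ℕ, p ∈ B (Nat.unpair j).1 ∧ j ≤ p.1 := by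
      intro j
      obtain ⟨p, hp, hp'⟩ := hVn.nonempty_of_mem (inter_mem (hV _ (hBG (Nat.unpair j).1)) (hVC j))
      exact ⟨p, hp, hp'⟩
    choose x hx hxj using hpt
    let f : ℕ → ℕ := fun n => ((Finset.range (n + 1)).sup (fun j => (x j).2)) + 1
    have hxf : ∀ j, x j ∉ Af f := by
      intro j hj
      have h1 : (x j).2 ≤ (Finset.range ((x j).1 + 1)).sup (fun i => (x i).2) :=
        Finset.le_sup (f := fun i => (x i).2)
          (Finset.mem_range.2 (Nat.lt_succ_of_le (hxj j)))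
      have h2 : f (x j).1 ≤ (x j).2 := hj
      simp only [f] at h2
      omega
    obtain ⟨C, hC, hCA⟩ := hGr (Af f) (Or.inr ⟨f, rfl⟩)
    obtain ⟨k, hk⟩ := hcoin C hC
    have h3 : ASub (B k) (Af f) := hk.trans hCA
    have h3' : (Prod.fst '' (B k \ Af f)).Finite := Set.Finite.image _ h3
    obtain ⟨N, hN⟩ := h3'.bddAbove
    have h4 : (x (Nat.pair k (N + 1))).1 ≤ N := by
      refine hN ⟨_, ⟨?_, hxf _⟩, rfl⟩
      have := hx (Nat.pair k (N + 1))
      simpa using this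
    have h5 := hxj (Nat.pair k (N + 1))
    have h6 : N + 1 ≤ Nat.pair k (N + 1) := Nat.right_le_pair _ _
    omega

end Pool.Agent.H83.LR
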